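import Pool.Agent.TH22.SP.Depth

set_option autoImplicit false

/-!
# The access lemma for splaying with an abstract rank function on intervals
-/

namespace Pool.Agent.Helper76.CW

open Pool.Agent.H581R2.Splay Tr

/-- the sum of the ranks of all subtrees -/
def Pot (r : List ℕ → ℤ) : Tr → ℤ
  | nil => 0
  | node a l t => r (keys (node a l t)) + Pot r l + Pot r t

/-- rank functions on the intervals of `K` -/
structure Rank (K : List ℕ) (r : List ℕ → ℤ) : Prop where
  mono : ∀ I J : List ℕ, I ≠ [] → I <:+: J → J <:+: K → r I ≤ r J
  star : ∀ (I : List ℕ) (b : ℕ) (J : List ℕ), I ≠ [] → J ≠ [] → I ++ b :: J <:+: K →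
    r I + r J + 1 ≤ 2 * r (I ++ b :: J)

theorem pot_plug (r : List ℕ → ℤ) (fs : List Fr) : ∀ t t' : Tr, keys t = keys t' →
    Pot r (plug fs t) - Pot r t = Pot r (plug fs t') - Pot r t' := by
  induction fs with
  | nil => intro t t' _; simp [plug]
  | cons g fs ih =>
    intro t t' h
    cases g with
    | inL a c =>
      have := ih (plug1 (Fr.inL a c) t) (plug1 (Fr.inL a c) t') (by simp [plug1, keys, h])
      simp only [plug]
      simp only [plug1, Pot, keys] at this ⊢
      rw [h] at this
      linarith
    | inR a c =>
      have := ih (plug1 (Fr.inR a c) t) (plug1 (Fr.inR a c) t') (by simp [plug1, keys, h])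
      simp only [plug]
      simp only [plug1, Pot, keys] at this ⊢
      rw [h] at this
      linarith

theorem keys_plug_infix (fs : List Fr) (t : Tr) : keys t <:+: keys (plug fs t) := by
  rw [keys_plug]
  exact ⟨pre fs, post fs, rfl⟩

theorem climb_pot {K : List ℕ} {r : List ℕ → ℤ} (hr : Rank K r) (x : ℕ) : ∀ (n : ℕ) (fs : List Fr)
    (l t : Tr), fs.length ≤ n → keys (plug fs (node x l t)) <:+: K →
    2 * Pot r (climb x fs l t) + (fs.length : ℤ) ≤ 2 * Pot r (plug fs (node x l t)) +
      6 * (r (keys (plug fs (node x l t))) - r (keys (node x l t))) + 1 := by
  intro n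
  induction n with
  | zero =>
    intro fs l t hn _
    have : fs = [] := by simpa using hn
    subst this
    simp [climb, plug]
  | succ n ih =>
    intro fs l t hn hK
    match fs, hn, hK with
    | [], _, _ => simp [climb, plug]
    | [Fr.inL y c], _, hK =>
      simp only [plug, plug1] at hK ⊢
      have e : keys (node x l (node y t c)) = keys (node y (node x l t) c) := by simp [keys]
      have h1 : r (keys (node y t c)) ≤ r (keys (node y (node x l t) c)) :=
        hr.mono _ _ (by simp [keys]) ⟨keys l ++ [x], [], by simp [keys]⟩ hK
      simp only [climb, Pot, List.length_cons, List.length_nil]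
      rw [e]
      push_cast
      have h2 : r (keys (node x l t)) ≤ r (keys (node y (node x l t) c)) :=
        hr.mono _ _ (by simp [keys]) ⟨[], y :: keys c, by simp [keys]⟩ hK
      linarith
    | [Fr.inR y c], _, hK =>
      simp only [plug, plug1] at hK ⊢
      have e : keys (node x (node y c l) t) = keys (node y c (node x l t)) := by simp [keys]
      have h1 : r (keys (node y c l)) ≤ r (keys (node y c (node x l t))) :=
        hr.mono _ _ (by simp [keys]) ⟨[], x :: keys t, by simp [keys]⟩ hK
      simp only [climb, Pot, List.length_cons, List.length_nil]
      rw [e]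
      push_cast
      have h2 : r (keys (node x l t)) ≤ r (keys (node y c (node x l t))) :=
        hr.mono _ _ (by simp [keys]) ⟨keys c ++ [y], [], by simp [keys]⟩ hK
      linarith
    | Fr.inL y c :: Fr.inL z d :: fs, hn, hK =>
      have e : keys (node x l (node y t (node z c d))) = keys (node z (node y (node x l t) c) d) := by
        simp [keys]
      have hpl : plug (Fr.inL y c :: Fr.inL z d :: fs) (node x l t) =
          plug fs (node z (node y (node x l t) c) d) := rfl
      rw [hpl] at hK ⊢
      have hkk : keys (plug fs (node x l (node y t (node z c d)))) =
          keys (plug fs (node z (node y (node x l t) c) d)) := by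
        rw [keys_plug, keys_plug, e]
      have i := ih fs l (node y t (node z c d)) (by simp at hn; omega) (by rw [hkk]; exact hK)
      rw [hkk, e] at i
      have p := pot_plug r fs _ _ e
      have hB : keys (node z (node y (node x l t) c) d) <:+: K :=
        (keys_plug_infix fs _).trans hK
      have m1 : r (keys (node y t (node z c d))) ≤ r (keys (node z (node y (node x l t) c) d)) :=
        hr.mono _ _ (by simp [keys]) ⟨keys l ++ [x], [], by simp [keys]⟩ hB
      have m2 : r (keys (node x l t)) ≤ r (keys (node y (node x l t) c)) :=
        hr.mono _ _ (by simp [keys]) ⟨[], y :: keys c, by simp [keys]⟩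
          (List.IsInfix.trans ⟨[], z :: keys d, by simp [keys]⟩ hB)
      have m3 := hr.star (keys (node x l t)) y (keys (node z c d)) (by simp [keys]) (by simp [keys])
        (by
          have : keys (node x l t) ++ y :: keys (node z c d) =
              keys (node z (node y (node x l t) c) d) := by simp [keys]
          rw [this]; exact hB)
      have e3 : keys (node x l t) ++ y :: keys (node z c d) =
          keys (node z (node y (node x l t) c) d) := by simp [keys]
      rw [e3] at m3
      simp only [climb]
      simp only [Pot] at p i ⊢
      rw [e] at p
      simp only [List.length_cons]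
      push_cast
      linarith
    | Fr.inR y c :: Fr.inR z d :: fs, hn, hK =>
      have e : keys (node x (node y (node z d c) l) t) = keys (node z d (node y c (node x l t))) := by
        simp [keys]
      have hpl : plug (Fr.inR y c :: Fr.inR z d :: fs) (node x l t) =
          plug fs (node z d (node y c (node x l t))) := rfl
      rw [hpl] at hK ⊢
      have hkk : keys (plug fs (node x (node y (node z d c) l) t)) =
          keys (plug fs (node z d (node y c (node x l t)))) := by
        rw [keys_plug, keys_plug, e]
      have i := ih fs (node y (node z d c) l) t (by simp at hn; omega) (by rw [hkk]; exact hK)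
      rw [hkk, e] at i
      have p := pot_plug r fs _ _ e
      have hB : keys (node z d (node y c (node x l t))) <:+: K :=
        (keys_plug_infix fs _).trans hK
      have m1 : r (keys (node y (node z d c) l)) ≤ r (keys (node z d (node y c (node x l t)))) :=
        hr.mono _ _ (by simp [keys]) ⟨[], x :: keys t, by simp [keys]⟩ hB
      have m2 : r (keys (node x l t)) ≤ r (keys (node y c (node x l t))) :=
        hr.mono _ _ (by simp [keys]) ⟨keys c ++ [y], [], by simp [keys]⟩
          (List.IsInfix.trans ⟨keys d ++ [z], [], by simp [keys]⟩ hB)
      have m3 := hr.star (keys (node z d c)) y (keys (node x l t)) (by simp [keys]) (by simp [keys])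
        (by
          have : keys (node z d c) ++ y :: keys (node x l t) =
              keys (node z d (node y c (node x l t))) := by simp [keys]
          rw [this]; exact hB)
      have e3 : keys (node z d c) ++ y :: keys (node x l t) =
          keys (node z d (node y c (node x l t))) := by simp [keys]
      rw [e3] at m3
      simp only [climb]
      simp only [Pot] at p i ⊢
      rw [e] at p
      simp only [List.length_cons]
      push_cast
      linarith
    | Fr.inL y c :: Fr.inR z d :: fs, hn, hK =>
      have e : keys (node x (node z d l) (node y t c)) = keys (node z d (node y (node x l t) c)) := by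
        simp [keys]
      have hpl : plug (Fr.inL y c :: Fr.inR z d :: fs) (node x l t) =
          plug fs (node z d (node y (node x l t) c)) := rfl
      rw [hpl] at hK ⊢
      have hkk : keys (plug fs (node x (node z d l) (node y t c))) =
          keys (plug fs (node z d (node y (node x l t) c))) := by
        rw [keys_plug, keys_plug, e]
      have i := ih fs (node z d l) (node y t c) (by simp at hn; omega) (by rw [hkk]; exact hK)
      rw [hkk, e] at i
      have p := pot_plug r fs _ _ e
      have hB : keys (node z d (node y (node x l t) c)) <:+: K :=
        (keys_plug_infix fs _).trans hK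
      have m2 : r (keys (node x l t)) ≤ r (keys (node y (node x l t) c)) :=
        hr.mono _ _ (by simp [keys]) ⟨[], y :: keys c, by simp [keys]⟩
          (List.IsInfix.trans ⟨keys d ++ [z], [], by simp [keys]⟩ hB)
      have m4 : r (keys (node y (node x l t) c)) ≤ r (keys (node z d (node y (node x l t) c))) :=
        hr.mono _ _ (by simp [keys]) ⟨keys d ++ [z], [], by simp [keys]⟩ hB
      have e3 : keys (node z d l) ++ x :: keys (node y t c) =
          keys (node z d (node y (node x l t) c)) := by simp [keys]
      have m3 := hr.star (keys (node z d l)) x (keys (node y t c)) (by simp [keys]) (by simp [keys])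
        (by rw [e3]; exact hB)
      rw [e3] at m3
      simp only [climb]
      simp only [Pot] at p i ⊢
      rw [e] at p
      simp only [List.length_cons]
      push_cast
      linarith
    | Fr.inR y c :: Fr.inL z d :: fs, hn, hK =>
      have e : keys (node x (node y c l) (node z t d)) = keys (node z (node y c (node x l t)) d) := by
        simp [keys]
      have hpl : plug (Fr.inR y c :: Fr.inL z d :: fs) (node x l t) =
          plug fs (node z (node y c (node x l t)) d) := rfl
      rw [hpl] at hK ⊢
      have hkk : keys (plug fs (node x (node y c l) (node z t d))) =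
          keys (plug fs (node z (node y c (node x l t)) d)) := by
        rw [keys_plug, keys_plug, e]
      have i := ih fs (node y c l) (node z t d) (by simp at hn; omega) (by rw [hkk]; exact hK)
      rw [hkk, e] at i
      have p := pot_plug r fs _ _ e
      have hB : keys (node z (node y c (node x l t)) d) <:+: K :=
        (keys_plug_infix fs _).trans hK
      have m2 : r (keys (node x l t)) ≤ r (keys (node y c (node x l t))) :=
        hr.mono _ _ (by simp [keys]) ⟨keys c ++ [y], [], by simp [keys]⟩
          (List.IsInfix.trans ⟨[], z :: keys d, by simp [keys]⟩ hB)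
      have m4 : r (keys (node y c (node x l t))) ≤ r (keys (node z (node y c (node x l t)) d)) :=
        hr.mono _ _ (by simp [keys]) ⟨[], z :: keys d, by simp [keys]⟩ hB
      have e3 : keys (node y c l) ++ x :: keys (node z t d) =
          keys (node z (node y c (node x l t)) d) := by simp [keys]
      have m3 := hr.star (keys (node y c l)) x (keys (node z t d)) (by simp [keys]) (by simp [keys])
        (by rw [e3]; exact hB)
      rw [e3] at m3
      simp only [climb]
      simp only [Pot] at p i ⊢
      rw [e] at p
      simp only [List.length_cons]
      push_cast
      linarith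

/-- **The access lemma.** -/
theorem access_rank {K : List ℕ} {r : List ℕ → ℤ} (hr : Rank K r) {x : ℕ} {t : Tr} (hb : IsBST t)
    (hx : x ∈ keys t) (hK : keys t = K) {m : ℤ}
    (hm : ∀ I : List ℕ, x ∈ I → I <:+: K → m ≤ r I) :
    2 * Pot r (splay x t) + (dep x t : ℤ) ≤ 2 * Pot r t + 6 * (r K - m) + 1 := by
  obtain ⟨h1, h2⟩ := locate_spec x t [] hb hx
  have h1' : plug (locate x t []).1 (node x (locate x t []).2.1 (locate x t []).2.2) = t := h1
  have h2' : (locate x t []).1.length = dep x t := by simpa using h2
  have hc := climb_pot hr x _ (locate x t []).1 (locate x t []).2.1 (locate x t []).2.2 le_rfl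
    (by rw [h1', hK])
  rw [h1', h2', hK] at hc
  have h3 := hm (keys (node x (locate x t []).2.1 (locate x t []).2.2)) (by simp [keys]) (by
    have := keys_plug_infix (locate x t []).1 (node x (locate x t []).2.1 (locate x t []).2.2)
    rwa [h1', hK] at this)
  unfold splay
  linarith

end Pool.Agent.Helper76.CW
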