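import Pool.Agent.Helper76.CW.CwA

set_option autoImplicit false

/-!
# The rank function of a level function with few ties
-/

namespace Pool.Agent.Helper76.CW

open Pool.Agent.H581R2.Splay Tr
open Pool.Agent.TH22.SP (ancs Meets meets_node ancs_of_meets)

/-- the least level of the keys in `I` -/
noncomputable def lo (f : ℕ → ℕ) (I : List ℕ) : ℕ := sInf {m | ∃ k ∈ I, f k = m}

/-- the number of the keys in `I` of the least level -/
noncomputable def cnt (f : ℕ → ℕ) (I : List ℕ) : ℕ := I.countP fun k => f k = lo f I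

/-- the rank of `I` -/
noncomputable def rho (La : ℕ) (f : ℕ → ℕ) (I : List ℕ) : ℤ :=
  (Nat.log 2 (cnt f I) : ℤ) - (La : ℤ) * (lo f I : ℤ)

/-- in every interval of `K` at most `B` keys have the least level -/
def Cap (B : ℕ) (f : ℕ → ℕ) (K : List ℕ) : Prop :=
  ∀ I : List ℕ, I ≠ [] → I <:+: K → cnt f I ≤ B

theorem lo_le {f : ℕ → ℕ} {I : List ℕ} {k : ℕ} (h : k ∈ I) : lo f I ≤ f k :=
  Nat.sInf_le ⟨k, h, rfl⟩

theorem lo_att {f : ℕ → ℕ} {I : List ℕ} (h : I ≠ []) : ∃ k ∈ I, f k = lo f I := by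
  obtain ⟨a, ha⟩ := List.exists_mem_of_ne_nil I h
  exact Nat.sInf_mem (s := {m | ∃ k ∈ I, f k = m}) ⟨f a, a, ha, rfl⟩

theorem le_lo {f : ℕ → ℕ} {I : List ℕ} {c : ℕ} (h : I ≠ []) (hc : ∀ k ∈ I, c ≤ f k) :
    c ≤ lo f I := by
  obtain ⟨k, hk, e⟩ := lo_att (f := f) h
  rw [← e]; exact hc k hk

theorem lo_eq {f : ℕ → ℕ} {I : List ℕ} {m : ℕ} (hm : m ∈ I) (h : ∀ z ∈ I, f m ≤ f z) :
    lo f I = f m :=
  le_antisymm (lo_le hm) (le_lo (List.ne_nil_of_mem hm) h)

theorem lo_congr {f g : ℕ → ℕ} {I : List ℕ} (h : ∀ k ∈ I, f k = g k) : lo f I = lo g I := by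
  unfold lo
  congr 1
  ext m
  constructor
  · rintro ⟨k, hk, e⟩; exact ⟨k, hk, by rw [← h k hk]; exact e⟩
  · rintro ⟨k, hk, e⟩; exact ⟨k, hk, by rw [h k hk]; exact e⟩

theorem cnt_congr {f g : ℕ → ℕ} {I : List ℕ} (h : ∀ k ∈ I, f k = g k) : cnt f I = cnt g I := by
  unfold cnt
  rw [lo_congr h]
  refine List.countP_congr fun k hk => ?_
  rw [h k hk]

theorem rho_congr {La : ℕ} {f g : ℕ → ℕ} {I : List ℕ} (h : ∀ k ∈ I, f k = g k) :
    rho La f I = rho La g I := by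
  unfold rho
  rw [lo_congr h, cnt_congr h]

theorem cap_congr {B : ℕ} {f g : ℕ → ℕ} {K : List ℕ} (h : ∀ k ∈ K, f k = g k) (hc : Cap B f K) :
    Cap B g K := by
  intro I hI hK
  rw [← cnt_congr fun k hk => h k (hK.subset hk)]
  exact hc I hI hK

theorem one_le_cnt {f : ℕ → ℕ} {I : List ℕ} (h : I ≠ []) : 1 ≤ cnt f I := by
  obtain ⟨k, hk, e⟩ := lo_att (f := f) h
  exact List.countP_pos_iff.2 ⟨k, hk, by simpa using e⟩

theorem log_add {c d : ℕ} (hc : 1 ≤ c) (hd : 1 ≤ d) :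
    Nat.log 2 c + Nat.log 2 d + 1 ≤ 2 * Nat.log 2 (c + d) := by
  have key : ∀ c d : ℕ, 1 ≤ c → c ≤ d →
      Nat.log 2 c + Nat.log 2 d + 1 ≤ 2 * Nat.log 2 (c + d) := by
    intro c d hc hcd
    have h1 : Nat.log 2 c + 1 ≤ Nat.log 2 (c + d) := by
      have : Nat.log 2 (c * 2) = Nat.log 2 c + 1 := Nat.log_mul_base (by norm_num) (by omega)
      rw [← this]
      exact Nat.log_mono_right (by omega)
    have h2 : Nat.log 2 d ≤ Nat.log 2 (c + d) := Nat.log_mono_right (by omega)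
    omega
  rcases le_total c d with h | h
  · exact key c d hc h
  · have := key d c hd h
    rw [add_comm d c] at this
    omega

theorem log_le {La B : ℕ} (hLa : Nat.log 2 B + 1 = La) {f : ℕ → ℕ} {K I : List ℕ}
    (hc : Cap B f K) (hI : I ≠ []) (hK : I <:+: K) : (Nat.log 2 (cnt f I) : ℤ) ≤ (La : ℤ) - 1 := by
  have := Nat.log_mono_right (b := 2) (hc I hI hK)
  omega

theorem rho_ge (La : ℕ) (f : ℕ → ℕ) {I : List ℕ} {x : ℕ} (h : x ∈ I) :
    -((La : ℤ) * (f x : ℤ)) ≤ rho La f I := by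
  unfold rho
  have h1 : (lo f I : ℤ) ≤ (f x : ℤ) := by exact_mod_cast lo_le h
  have h2 : (0 : ℤ) ≤ (Nat.log 2 (cnt f I) : ℤ) := by positivity
  have h3 : (La : ℤ) * (lo f I : ℤ) ≤ (La : ℤ) * (f x : ℤ) :=
    mul_le_mul_of_nonneg_left h1 (by positivity)
  linarith

theorem rho_le {La B : ℕ} (hLa : Nat.log 2 B + 1 = La) {f : ℕ → ℕ} {K I : List ℕ}
    (hc : Cap B f K) (hI : I ≠ []) (hK : I <:+: K) : rho La f I ≤ (La : ℤ) - 1 := by
  unfold rho
  have h1 := log_le hLa hc hI hK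
  have h2 : (0 : ℤ) ≤ (La : ℤ) * (lo f I : ℤ) := by positivity
  linarith

/-- intervals of higher level have smaller rank -/
theorem rho_lt {La B : ℕ} (hLa : Nat.log 2 B + 1 = La) {f g : ℕ → ℕ} {K I J : List ℕ}
    (hc : Cap B f K) (hI : I ≠ []) (hK : I <:+: K) (h : lo g J < lo f I) :
    rho La f I + 1 ≤ rho La g J := by
  unfold rho
  have h1 := log_le hLa hc hI hK
  have h2 : (0 : ℤ) ≤ (Nat.log 2 (cnt g J) : ℤ) := by positivity
  have h3 : (lo g J : ℤ) + 1 ≤ (lo f I : ℤ) := by exact_mod_cast h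
  have h4 : (La : ℤ) * ((lo g J : ℤ) + 1) ≤ (La : ℤ) * (lo f I : ℤ) :=
    mul_le_mul_of_nonneg_left h3 (by positivity)
  rw [mul_add, mul_one] at h4
  linarith

theorem rank_rho {La B : ℕ} (hLa : Nat.log 2 B + 1 = La) {f : ℕ → ℕ} {K : List ℕ}
    (hc : Cap B f K) : Rank K (rho La f) := by
  have hmono : ∀ I J : List ℕ, I ≠ [] → I <:+: J → J <:+: K → rho La f I ≤ rho La f J := by
    intro I J hI hIJ hJ
    have hJ0 : J ≠ [] := by
      rintro rfl
      exact hI (List.infix_nil.1 hIJ)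
    have h1 : lo f J ≤ lo f I := by
      obtain ⟨k, hk, e⟩ := lo_att (f := f) hI
      rw [← e]; exact lo_le (hIJ.subset hk)
    rcases Nat.lt_or_ge (lo f J) (lo f I) with h | h
    · have := rho_lt hLa hc hI (hIJ.trans hJ) h
      linarith
    · have e : lo f I = lo f J := by omega
      unfold rho
      rw [e]
      have h2 : cnt f I ≤ cnt f J := by
        unfold cnt
        rw [e]
        exact hIJ.sublist.countP_le
      have := Nat.log_mono_right (b := 2) h2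
      have : (Nat.log 2 (cnt f I) : ℤ) ≤ (Nat.log 2 (cnt f J) : ℤ) := by exact_mod_cast this
      linarith
  refine ⟨hmono, ?_⟩
  intro I b J hI hJ hK
  have i1 : I <:+: I ++ b :: J := ⟨[], b :: J, by simp⟩
  have i2 : J <:+: I ++ b :: J := ⟨I ++ [b], [], by simp⟩
  have m1 := hmono I _ hI i1 hK
  have m2 := hmono J _ hJ i2 hK
  have l1 : lo f (I ++ b :: J) ≤ lo f I := by
    obtain ⟨k, hk, e⟩ := lo_att (f := f) hI
    rw [← e]; exact lo_le (i1.subset hk)
  have l2 : lo f (I ++ b :: J) ≤ lo f J := by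
    obtain ⟨k, hk, e⟩ := lo_att (f := f) hJ
    rw [← e]; exact lo_le (i2.subset hk)
  rcases Nat.lt_or_ge (lo f (I ++ b :: J)) (lo f I) with h | h
  · have := rho_lt (g := f) hLa hc hI (i1.trans hK) h
    linarith
  rcases Nat.lt_or_ge (lo f (I ++ b :: J)) (lo f J) with h' | h'
  · have := rho_lt (g := f) hLa hc hJ (i2.trans hK) h'
    linarith
  have e1 : lo f I = lo f (I ++ b :: J) := by omega
  have e2 : lo f J = lo f (I ++ b :: J) := by omega
  have h3 : cnt f I + cnt f J ≤ cnt f (I ++ b :: J) := by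
    unfold cnt
    rw [e1, e2, List.countP_append, List.countP_cons]
    omega
  have h4 := log_add (one_le_cnt (f := f) hI) (one_le_cnt (f := f) hJ)
  have h5 := Nat.log_mono_right (b := 2) h3
  unfold rho
  rw [e1, e2]
  have h6 : ((Nat.log 2 (cnt f I) : ℕ) : ℤ) + (Nat.log 2 (cnt f J) : ℤ) + 1 ≤
      2 * (Nat.log 2 (cnt f (I ++ b :: J)) : ℤ) := by
    have : Nat.log 2 (cnt f I) + Nat.log 2 (cnt f J) + 1 ≤ 2 * Nat.log 2 (cnt f (I ++ b :: J)) := by
      omega
    exact_mod_cast this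
  linarith

/-- the potential -/
noncomputable def Tot (La : ℕ) (f : ℕ → ℕ) : Tr → ℤ
  | nil => 0
  | node a l r => ((La : ℤ) * (f a : ℤ) + rho La f (keys (node a l r))) + Tot La f l + Tot La f r

theorem tot_eq (La : ℕ) (f : ℕ → ℕ) : ∀ t : Tr,
    Tot La f t = (La : ℤ) * ((keys t).map fun k => (f k : ℤ)).sum + Pot (rho La f) t := by
  intro t
  induction t with
  | nil => simp [Tot, Pot, keys]
  | node a l r ihl ihr =>
    simp only [Tot, Pot, keys, List.map_append, List.map_cons, List.sum_append, List.sum_cons]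
    rw [ihl, ihr]
    ring

theorem tot_nonneg (La : ℕ) (f : ℕ → ℕ) : ∀ t : Tr, 0 ≤ Tot La f t := by
  intro t
  induction t with
  | nil => simp [Tot]
  | node a l r ihl ihr =>
    have := rho_ge La f (I := keys (node a l r)) (x := a) (by simp [keys])
    simp only [Tot]
    linarith

theorem tot_congr {La : ℕ} {f g : ℕ → ℕ} : ∀ t : Tr, (∀ k ∈ keys t, f k = g k) →
    Tot La f t = Tot La g t := by
  intro t
  induction t with
  | nil => intro _; rfl
  | node a l r ihl ihr =>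
    intro h
    simp only [Tot]
    rw [rho_congr h, ihl fun k hk => h k (by simp [keys, hk]),
      ihr fun k hk => h k (by simp [keys, hk]), h a (by simp [keys])]

/-- the splaying step -/
theorem tot_splay {La B : ℕ} (hLa : Nat.log 2 B + 1 = La) {f : ℕ → ℕ} {x : ℕ} {S : Tr}
    (hb : IsBST S) (hx : x ∈ keys S) (hc : Cap B f (keys S)) :
    2 * Tot La f (splay x S) + (dep x S : ℤ) ≤
      2 * Tot La f S + 6 * ((La : ℤ) - 1 + (La : ℤ) * (f x : ℤ)) + 1 := by
  have h := access_rank (rank_rho hLa hc) hb hx rfl (m := -((La : ℤ) * (f x : ℤ)))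
    (fun I hI _ => rho_ge La f hI)
  have h2 := rho_le hLa hc (I := keys S) (List.ne_nil_of_mem hx) List.infix_rfl
  rw [tot_eq, tot_eq, splay_keys hb hx]
  linarith

/-- one interval, if all differences of levels to a least one decrease -/
theorem node_le {La : ℕ} {f g : ℕ → ℕ} {I : List ℕ} {m : ℕ} (hm : m ∈ I)
    (h : ∀ z ∈ I, f m ≤ f z ∧ g m ≤ g z ∧ g z + f m ≤ f z + g m ∧ (g z = g m → f z = f m)) {a : ℕ}
    (ha : a ∈ I) : (La : ℤ) * (g a : ℤ) + rho La g I ≤ (La : ℤ) * (f a : ℤ) + rho La f I := by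
  have e1 : lo f I = f m := lo_eq hm fun z hz => (h z hz).1
  have e2 : lo g I = g m := lo_eq hm fun z hz => (h z hz).2.1
  unfold rho
  rw [e1, e2]
  have h2 : cnt g I ≤ cnt f I := by
    unfold cnt
    rw [e1, e2]
    refine List.countP_mono_left fun z hz he => ?_
    simp only [decide_eq_true_eq] at he ⊢
    exact (h z hz).2.2.2 he
  have h3 := Nat.log_mono_right (b := 2) h2
  have h4 : (Nat.log 2 (cnt g I) : ℤ) ≤ (Nat.log 2 (cnt f I) : ℤ) := by exact_mod_cast h3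
  have h5 : (g a : ℤ) + (f m : ℤ) ≤ (f a : ℤ) + (g m : ℤ) := by exact_mod_cast (h a ha).2.2.1
  have h6 : (La : ℤ) * ((g a : ℤ) + (f m : ℤ)) ≤ (La : ℤ) * ((f a : ℤ) + (g m : ℤ)) :=
    mul_le_mul_of_nonneg_left h5 (by positivity)
  rw [mul_add, mul_add] at h6
  linarith

theorem cnt_le_of {f g : ℕ → ℕ} {I : List ℕ} {m : ℕ} (hm : m ∈ I)
    (h : ∀ z ∈ I, f m ≤ f z ∧ g m ≤ g z ∧ g z + f m ≤ f z + g m ∧ (g z = g m → f z = f m)) :
    cnt g I ≤ cnt f I := by
  have e1 : lo f I = f m := lo_eq hm fun z hz => (h z hz).1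
  have e2 : lo g I = g m := lo_eq hm fun z hz => (h z hz).2.1
  unfold cnt
  rw [e1, e2]
  refine List.countP_mono_left fun z hz he => ?_
  simp only [decide_eq_true_eq] at he ⊢
  exact (h z hz).2.2.2 he

end Pool.Agent.Helper76.CW
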