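import Pool.Agent.Helper76.CW.CwB

set_option autoImplicit false

/-!
# Search trees with marks, and the levels they define
-/

namespace Pool.Agent.Helper76.CW

open Pool.Agent.H581R2.Splay Tr

/-- Binary trees whose nodes carry a key and a mark. -/
inductive MT : Type
  | nil : MT
  | node (a : ℕ) (m : Bool) (l r : MT) : MT

/-- forget the marks -/
def fg : MT → Tr
  | MT.nil => Tr.nil
  | MT.node a _ l r => Tr.node a (fg l) (fg r)

/-- the number of marks on the search path for `x` -/
def wd (x : ℕ) : MT → ℕ
  | MT.nil => 0
  | MT.node a m l r => m.toNat + (if x = a then 0 else if x < a then wd x l else wd x r)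

/-- mark the root if `m` -/
def orM (m : Bool) : MT → MT
  | MT.nil => MT.nil
  | MT.node a m' l r => MT.node a (m || m') l r

/-- remove `x` from a tree and split the tree at `x`; the mark of a node tells if there was a mark
between its new parent and it -/
def split (x : ℕ) : MT → MT × MT
  | MT.nil => (MT.nil, MT.nil)
  | MT.node a m l r =>
      if x = a then (orM m l, orM m r)
      else if x < a then (orM m (split x l).1, MT.node a m (split x l).2 r)
      else (MT.node a m l (split x r).1, orM m (split x r).2)

/-- the level function after `x` has been moved to the root -/
def gs (x : ℕ) (t : MT) (z : ℕ) : ℕ :=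
  if z = x then 0 else if z < x then wd z (split x t).1 else wd z (split x t).2

theorem fg_orM (m : Bool) (t : MT) : fg (orM m t) = fg t := by
  cases t <;> rfl

theorem wd_orM (m : Bool) (t : MT) : ∃ δ : ℕ, δ ≤ m.toNat ∧ ∀ z, z ∈ keys (fg t) →
    wd z (orM m t) = wd z t + δ ∧ m.toNat ≤ wd z (orM m t) := by
  cases t with
  | nil => exact ⟨0, by simp, by intro z hz; simp [fg, keys] at hz⟩
  | node a m' l r =>
    cases m with
    | false => exact ⟨0, by simp, fun z _ => by simp [orM]⟩
    | true =>
      cases m' with
      | false =>
        refine ⟨1, by simp, fun z _ => ⟨?_, ?_⟩⟩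
        · simp only [orM, wd, Bool.true_or, Bool.toNat_true, Bool.toNat_false]; omega
        · simp only [orM, wd, Bool.true_or, Bool.toNat_true]; omega
      | true =>
        refine ⟨0, by simp, fun z _ => ⟨?_, ?_⟩⟩
        · simp only [orM, wd, Bool.true_or]; omega
        · simp only [orM, wd, Bool.true_or, Bool.toNat_true]; omega

theorem wd_l {a k : ℕ} {m : Bool} {l r : MT} (h : k < a) :
    wd k (MT.node a m l r) = m.toNat + wd k l := by
  simp only [wd]; rw [if_neg (by omega), if_pos h]

theorem wd_r {a k : ℕ} {m : Bool} {l r : MT} (h : a < k) :
    wd k (MT.node a m l r) = m.toNat + wd k r := by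
  simp only [wd]; rw [if_neg (by omega), if_neg (by omega)]

theorem wd_a {a : ℕ} {m : Bool} {l r : MT} : wd a (MT.node a m l r) = m.toNat := by
  simp [wd]

theorem wd_le_dep (z : ℕ) : ∀ t : MT, wd z t ≤ 1 + dep z (fg t) := by
  intro t
  induction t with
  | nil => simp [wd]
  | node a m l r ihl ihr =>
    simp only [wd, fg, dep]
    have : m.toNat ≤ 1 := Bool.toNat_le m
    split_ifs <;> omega

/-- the shape of the split tree -/
theorem fg_split (x : ℕ) : ∀ t : MT, IsBST (fg t) → x ∈ keys (fg t) →
    toRoot x (fg t) = Tr.node x (fg (split x t).1) (fg (split x t).2) := by
  intro t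
  induction t with
  | nil => intro _ h; simp [fg, keys] at h
  | node a m l r ihl ihr =>
    intro hb hx
    obtain ⟨hl, hr, h1, h2⟩ := bst_node (l := fg l) (r := fg r) (a := a) hb
    simp only [fg, keys, List.mem_append, List.mem_cons] at hx
    by_cases e : x = a
    · subst e
      simp [fg, toRoot, split, fg_orM]
    · by_cases e2 : x < a
      · have hxl : x ∈ keys (fg l) := by
          rcases hx with h | h | h
          · exact h
          · exact absurd h e
          · have := h2 x h; omega
        simp only [fg, toRoot, split]
        rw [if_neg e, if_pos e2, if_neg e, if_pos e2, ihl hl hxl]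
        simp only [rotR, fg_orM, fg]
      · have hxr : x ∈ keys (fg r) := by
          rcases hx with h | h | h
          · have := h1 x h; omega
          · exact absurd h e
          · exact h
        simp only [fg, toRoot, split]
        rw [if_neg e, if_neg e2, if_neg e, if_neg e2, ihr hr hxr]
        simp only [rotL, fg_orM, fg]

/-- the keys of the parts -/
theorem split_keys {x : ℕ} {t : MT} (hb : IsBST (fg t)) (hx : x ∈ keys (fg t)) :
    keys (fg (split x t).1) ++ x :: keys (fg (split x t).2) = keys (fg t) := by
  have h := (toRoot_spec x (fg t) hb hx).2
  rw [fg_split x t hb hx] at h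
  exact h

theorem split_mem {x z : ℕ} {t : MT} (hb : IsBST (fg t)) (hx : x ∈ keys (fg t))
    (hz : z ∈ keys (fg t)) : (z < x → z ∈ keys (fg (split x t).1)) ∧
      (x < z → z ∈ keys (fg (split x t).2)) := by
  have h := split_keys hb hx
  have hb' := hb
  unfold IsBST at hb'
  rw [← h, List.pairwise_append] at hb'
  obtain ⟨_, h2, h3⟩ := hb'
  rw [List.pairwise_cons] at h2
  rw [← h, List.mem_append, List.mem_cons] at hz
  constructor
  · intro hlt
    rcases hz with hz | hz | hz
    · exact hz
    · omega
    · have := h2.1 z hz; omega
  · intro hlt
    rcases hz with hz | hz | hz
    · have := h3 z hz x (by simp); omega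
    · omega
    · exact hz

/-- the level function of the tree with `x` at the root -/
theorem wd_gs {x z : ℕ} {t : MT} : wd z (MT.node x false (split x t).1 (split x t).2) = gs x t z := by
  simp only [wd, gs]
  split_ifs <;> simp

/-- the level functions before and after `x` is moved to the root -/
theorem split_cmp (x : ℕ) : ∀ t : MT, IsBST (fg t) → x ∈ keys (fg t) →
    (∀ z ∈ keys (fg t), gs x t z ≤ wd z t ∧ (z ≠ x → gs x t z = 0 → wd z t = 0)) ∧
    (∀ u ∈ keys (fg t), ∀ z ∈ keys (fg t), ((u < x ∧ z < x) ∨ (x < u ∧ x < z)) →
      (∀ k ∈ keys (fg t), ((u ≤ k ∧ k ≤ z) ∨ (z ≤ k ∧ k ≤ u)) → wd u t ≤ wd k t) →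
      gs x t u ≤ gs x t z ∧ gs x t z + wd u t ≤ wd z t + gs x t u ∧
        (gs x t z = gs x t u → wd z t = wd u t)) := by
  intro t
  induction t with
  | nil => intro _ h; simp [fg, keys] at h
  | node a m l r ihl ihr =>
    intro hb hx
    obtain ⟨hl, hr, h1, h2⟩ := bst_node (l := fg l) (r := fg r) (a := a) hb
    have hkeys : ∀ k, k ∈ keys (fg (MT.node a m l r)) ↔ k ∈ keys (fg l) ∨ k = a ∨ k ∈ keys (fg r) := by
      intro k; simp [fg, keys]
    rw [hkeys] at hx
    by_cases e : x = a
    · subst e
      obtain ⟨δl, dl1, dl2⟩ := wd_orM m l
      obtain ⟨δr, dr1, dr2⟩ := wd_orM m r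
      -- the levels
      have gl : ∀ z ∈ keys (fg l), gs x (MT.node x m l r) z = wd z l + δl ∧
          m.toNat ≤ wd z l + δl ∧ wd z (MT.node x m l r) = m.toNat + wd z l := by
        intro z hz
        have hzx := h1 z hz
        obtain ⟨q1, q2⟩ := dl2 z hz
        refine ⟨?_, by omega, wd_l hzx⟩
        simp only [gs, split]
        rw [if_neg (by omega), if_pos hzx, if_pos trivial]
        exact q1
      have gr : ∀ z ∈ keys (fg r), gs x (MT.node x m l r) z = wd z r + δr ∧
          m.toNat ≤ wd z r + δr ∧ wd z (MT.node x m l r) = m.toNat + wd z r := by
        intro z hz
        have hzx := h2 z hz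
        obtain ⟨q1, q2⟩ := dr2 z hz
        refine ⟨?_, by omega, wd_r hzx⟩
        simp only [gs, split]
        rw [if_neg (by omega), if_neg (by omega), if_pos trivial]
        exact q1
      have gx : gs x (MT.node x m l r) x = 0 := by simp [gs]
      refine ⟨?_, ?_⟩
      · intro z hz
        rcases (hkeys z).1 hz with hz | hz | hz
        · obtain ⟨q1, q2, q3⟩ := gl z hz
          rw [q1, q3]
          exact ⟨by omega, fun _ h0 => by omega⟩
        · subst hz
          exact ⟨by rw [gx]; omega, fun h => absurd rfl h⟩
        · obtain ⟨q1, q2, q3⟩ := gr z hz
          rw [q1, q3]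
          exact ⟨by omega, fun _ h0 => by omega⟩
      · intro u hu z hz hside hdom
        have hd := hdom z hz (by omega)
        rcases hside with ⟨s1, s2⟩ | ⟨s1, s2⟩
        · have hu' : u ∈ keys (fg l) := by
            rcases (hkeys u).1 hu with h | h | h
            · exact h
            · omega
            · have := h2 u h; omega
          have hz' : z ∈ keys (fg l) := by
            rcases (hkeys z).1 hz with h | h | h
            · exact h
            · omega
            · have := h2 z h; omega
          obtain ⟨q1, q2, q3⟩ := gl u hu'
          obtain ⟨p1, p2, p3⟩ := gl z hz'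
          rw [q1, p1, q3, p3]
          rw [q3, p3] at hd
          exact ⟨by omega, by omega, fun _ => by omega⟩
        · have hu' : u ∈ keys (fg r) := by
            rcases (hkeys u).1 hu with h | h | h
            · have := h1 u h; omega
            · omega
            · exact h
          have hz' : z ∈ keys (fg r) := by
            rcases (hkeys z).1 hz with h | h | h
            · have := h1 z h; omega
            · omega
            · exact h
          obtain ⟨q1, q2, q3⟩ := gr u hu'
          obtain ⟨p1, p2, p3⟩ := gr z hz'
          rw [q1, p1, q3, p3]
          rw [q3, p3] at hd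
          exact ⟨by omega, by omega, fun _ => by omega⟩
    · by_cases e2 : x < a
      · have hxl : x ∈ keys (fg l) := by
          rcases hx with h | h | h
          · exact h
          · exact absurd h e
          · have := h2 x h; omega
        obtain ⟨i1, i2⟩ := ihl hl hxl
        obtain ⟨δ, d1, d2⟩ := wd_orM m (split x l).1
        -- levels of the three kinds of keys
        have gA : ∀ z ∈ keys (fg l), z < x → gs x (MT.node a m l r) z = gs x l z + δ ∧
            m.toNat ≤ gs x l z + δ ∧ wd z (MT.node a m l r) = m.toNat + wd z l := by
          intro z hz hzx
          obtain ⟨q1, q2⟩ := d2 z ((split_mem hl hxl hz).1 hzx)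
          refine ⟨?_, ?_, wd_l (h1 z hz)⟩
          · simp only [gs, split]
            rw [if_neg (by omega), if_pos hzx, if_neg e, if_pos e2, if_neg (by omega), if_pos hzx]
            exact q1
          · simp only [gs]
            rw [if_neg (by omega), if_pos hzx]
            omega
        have gB : ∀ z ∈ keys (fg l), x < z → gs x (MT.node a m l r) z = m.toNat + gs x l z ∧
            wd z (MT.node a m l r) = m.toNat + wd z l := by
          intro z hz hzx
          refine ⟨?_, wd_l (h1 z hz)⟩
          simp only [gs, split]
          rw [if_neg (by omega), if_neg (by omega), if_neg e, if_pos e2, if_neg (by omega),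
            if_neg (by omega)]
          exact wd_l (h1 z hz)
        have ga : gs x (MT.node a m l r) a = m.toNat ∧ wd a (MT.node a m l r) = m.toNat := by
          refine ⟨?_, wd_a⟩
          simp only [gs, split]
          rw [if_neg (by omega), if_neg (by omega), if_neg e, if_pos e2]
          exact wd_a
        have gC : ∀ z ∈ keys (fg r), gs x (MT.node a m l r) z = m.toNat + wd z r ∧
            wd z (MT.node a m l r) = m.toNat + wd z r := by
          intro z hz
          have := h2 z hz
          refine ⟨?_, wd_r this⟩
          simp only [gs, split]
          rw [if_neg (by omega), if_neg (by omega), if_neg e, if_pos e2]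
          exact wd_r this
        have gx : gs x (MT.node a m l r) x = 0 := by simp [gs]
        have ha : a ∈ keys (fg (MT.node a m l r)) := by rw [hkeys]; simp
        have key0 : ∀ z ∈ keys (fg l), wd z l = 0 → gs x l z = 0 := fun z hz h0 => by
          have := (i1 z hz).1; omega
        refine ⟨?_, ?_⟩
        · intro z hz
          rcases (hkeys z).1 hz with hz | hz | hz
          · rcases lt_trichotomy z x with hzx | hzx | hzx
            · obtain ⟨q1, q2, q3⟩ := gA z hz hzx
              obtain ⟨p1, p2⟩ := i1 z hz
              rw [q1, q3]
              refine ⟨by omega, fun _ h0 => ?_⟩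
              have := p2 (by omega) (by omega)
              omega
            · subst hzx
              exact ⟨by rw [gx]; omega, fun h => absurd rfl h⟩
            · obtain ⟨q1, q3⟩ := gB z hz hzx
              obtain ⟨p1, p2⟩ := i1 z hz
              rw [q1, q3]
              refine ⟨by omega, fun _ h0 => ?_⟩
              have := p2 (by omega) (by omega)
              omega
          · subst hz
            rw [ga.1, ga.2]
            exact ⟨le_rfl, fun _ h => h⟩
          · rw [(gC z hz).1, (gC z hz).2]
            exact ⟨le_rfl, fun _ h => h⟩
        · intro u hu z hz hside hdom
          rcases hside with ⟨s1, s2⟩ | ⟨s1, s2⟩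
          · have hu' : u ∈ keys (fg l) := by
              rcases (hkeys u).1 hu with h | h | h
              · exact h
              · omega
              · have := h2 u h; omega
            have hz' : z ∈ keys (fg l) := by
              rcases (hkeys z).1 hz with h | h | h
              · exact h
              · omega
              · have := h2 z h; omega
            obtain ⟨j1, j2, j3⟩ := i2 u hu' z hz' (Or.inl ⟨s1, s2⟩) (fun k hk hb' => by
              have := hdom k ((hkeys k).2 (Or.inl hk)) hb'
              rw [wd_l (h1 k hk), wd_l (h1 u hu')] at this
              omega)
            obtain ⟨q1, q2, q3⟩ := gA u hu' s1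
            obtain ⟨p1, p2, p3⟩ := gA z hz' s2
            rw [q1, p1, q3, p3]
            refine ⟨by omega, by omega, fun h => ?_⟩
            have := j3 (by omega)
            omega
          · rcases (hkeys u).1 hu with hu' | hu' | hu'
            · obtain ⟨q1, q3⟩ := gB u hu' s1
              rcases (hkeys z).1 hz with hz' | hz' | hz'
              · obtain ⟨j1, j2, j3⟩ := i2 u hu' z hz' (Or.inr ⟨s1, s2⟩) (fun k hk hb' => by
                  have := hdom k ((hkeys k).2 (Or.inl hk)) hb'
                  rw [wd_l (h1 k hk), wd_l (h1 u hu')] at this
                  omega)
                obtain ⟨p1, p3⟩ := gB z hz' s2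
                rw [q1, p1, q3, p3]
                refine ⟨by omega, by omega, fun h => ?_⟩
                have := j3 (by omega)
                omega
              · subst hz'
                have hd := hdom z hz (by omega)
                rw [q3, ga.2] at hd
                have h0 := key0 u hu' (by omega)
                rw [q1, ga.1, q3, ga.2]
                exact ⟨by omega, by omega, fun _ => by omega⟩
              · have hua := h1 u hu'
                have haz := h2 z hz'
                have hd := hdom a ha (by omega)
                rw [q3, ga.2] at hd
                have h0 := key0 u hu' (by omega)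
                obtain ⟨p1, p3⟩ := gC z hz'
                rw [q1, p1, q3, p3]
                exact ⟨by omega, by omega, fun _ => by omega⟩
            · subst hu'
              rcases (hkeys z).1 hz with hz' | hz' | hz'
              · obtain ⟨p1, p3⟩ := gB z hz' s2
                obtain ⟨k1, k2⟩ := i1 z hz'
                rw [ga.1, ga.2, p1, p3]
                refine ⟨by omega, by omega, fun h => ?_⟩
                have := k2 (by omega) (by omega)
                omega
              · subst hz'
                exact ⟨le_rfl, by omega, fun _ => rfl⟩
              · obtain ⟨p1, p3⟩ := gC z hz'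
                rw [ga.1, ga.2, p1, p3]
                exact ⟨by omega, by omega, fun _ => by omega⟩
            · obtain ⟨q1, q3⟩ := gC u hu'
              rcases (hkeys z).1 hz with hz' | hz' | hz'
              · have hua := h2 u hu'
                have haz := h1 z hz'
                have hd := hdom a ha (by omega)
                rw [q3, ga.2] at hd
                obtain ⟨p1, p3⟩ := gB z hz' s2
                obtain ⟨k1, k2⟩ := i1 z hz'
                rw [q1, p1, q3, p3]
                refine ⟨by omega, by omega, fun h => ?_⟩
                have := k2 (by omega) (by omega)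
                omega
              · subst hz'
                have hd := hdom z hz (by omega)
                rw [q3, ga.2] at hd
                rw [q1, ga.1, q3, ga.2]
                exact ⟨by omega, by omega, fun _ => by omega⟩
              · have hd := hdom z hz (by omega)
                obtain ⟨p1, p3⟩ := gC z hz'
                rw [q3, p3] at hd
                rw [q1, p1, q3, p3]
                exact ⟨by omega, by omega, fun _ => by omega⟩
      · have e3 : a < x := by omega
        have hxr : x ∈ keys (fg r) := by
          rcases hx with h | h | h
          · have := h1 x h; omega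
          · exact absurd h e
          · exact h
        obtain ⟨i1, i2⟩ := ihr hr hxr
        obtain ⟨δ, d1, d2⟩ := wd_orM m (split x r).2
        have gA : ∀ z ∈ keys (fg r), x < z → gs x (MT.node a m l r) z = gs x r z + δ ∧
            m.toNat ≤ gs x r z + δ ∧ wd z (MT.node a m l r) = m.toNat + wd z r := by
          intro z hz hzx
          obtain ⟨q1, q2⟩ := d2 z ((split_mem hr hxr hz).2 hzx)
          refine ⟨?_, ?_, wd_r (h2 z hz)⟩
          · simp only [gs, split]
            rw [if_neg (by omega), if_neg (by omega), if_neg e, if_neg e2, if_neg (by omega),
              if_neg (by omega)]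
            exact q1
          · simp only [gs]
            rw [if_neg (by omega), if_neg (by omega)]
            omega
        have gB : ∀ z ∈ keys (fg r), z < x → gs x (MT.node a m l r) z = m.toNat + gs x r z ∧
            wd z (MT.node a m l r) = m.toNat + wd z r := by
          intro z hz hzx
          refine ⟨?_, wd_r (h2 z hz)⟩
          simp only [gs, split]
          rw [if_neg (by omega), if_pos hzx, if_neg e, if_neg e2, if_neg (by omega), if_pos hzx]
          exact wd_r (h2 z hz)
        have ga : gs x (MT.node a m l r) a = m.toNat ∧ wd a (MT.node a m l r) = m.toNat := by
          refine ⟨?_, wd_a⟩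
          simp only [gs, split]
          rw [if_neg (by omega), if_pos e3, if_neg e, if_neg e2]
          exact wd_a
        have gC : ∀ z ∈ keys (fg l), gs x (MT.node a m l r) z = m.toNat + wd z l ∧
            wd z (MT.node a m l r) = m.toNat + wd z l := by
          intro z hz
          have := h1 z hz
          refine ⟨?_, wd_l this⟩
          simp only [gs, split]
          rw [if_neg (by omega), if_pos (by omega), if_neg e, if_neg e2]
          exact wd_l this
        have gx : gs x (MT.node a m l r) x = 0 := by simp [gs]
        have ha : a ∈ keys (fg (MT.node a m l r)) := by rw [hkeys]; simp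
        have key0 : ∀ z ∈ keys (fg r), wd z r = 0 → gs x r z = 0 := fun z hz h0 => by
          have := (i1 z hz).1; omega
        refine ⟨?_, ?_⟩
        · intro z hz
          rcases (hkeys z).1 hz with hz | hz | hz
          · rw [(gC z hz).1, (gC z hz).2]
            exact ⟨le_rfl, fun _ h => h⟩
          · subst hz
            rw [ga.1, ga.2]
            exact ⟨le_rfl, fun _ h => h⟩
          · rcases lt_trichotomy z x with hzx | hzx | hzx
            · obtain ⟨q1, q3⟩ := gB z hz hzx
              obtain ⟨p1, p2⟩ := i1 z hz
              rw [q1, q3]
              refine ⟨by omega, fun _ h0 => ?_⟩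
              have := p2 (by omega) (by omega)
              omega
            · subst hzx
              exact ⟨by rw [gx]; omega, fun h => absurd rfl h⟩
            · obtain ⟨q1, q2, q3⟩ := gA z hz hzx
              obtain ⟨p1, p2⟩ := i1 z hz
              rw [q1, q3]
              refine ⟨by omega, fun _ h0 => ?_⟩
              have := p2 (by omega) (by omega)
              omega
        · intro u hu z hz hside hdom
          rcases hside with ⟨s1, s2⟩ | ⟨s1, s2⟩
          · rcases (hkeys u).1 hu with hu' | hu' | hu'
            · obtain ⟨q1, q3⟩ := gC u hu'
              rcases (hkeys z).1 hz with hz' | hz' | hz'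
              · have hd := hdom z hz (by omega)
                obtain ⟨p1, p3⟩ := gC z hz'
                rw [q3, p3] at hd
                rw [q1, p1, q3, p3]
                exact ⟨by omega, by omega, fun _ => by omega⟩
              · subst hz'
                have hd := hdom z hz (by omega)
                rw [q3, ga.2] at hd
                rw [q1, ga.1, q3, ga.2]
                exact ⟨by omega, by omega, fun _ => by omega⟩
              · have hua := h1 u hu'
                have haz := h2 z hz'
                have hd := hdom a ha (by omega)
                rw [q3, ga.2] at hd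
                obtain ⟨p1, p3⟩ := gB z hz' s2
                obtain ⟨k1, k2⟩ := i1 z hz'
                rw [q1, p1, q3, p3]
                refine ⟨by omega, by omega, fun h => ?_⟩
                have := k2 (by omega) (by omega)
                omega
            · subst hu'
              rcases (hkeys z).1 hz with hz' | hz' | hz'
              · obtain ⟨p1, p3⟩ := gC z hz'
                rw [ga.1, ga.2, p1, p3]
                exact ⟨by omega, by omega, fun _ => by omega⟩
              · subst hz'
                exact ⟨le_rfl, by omega, fun _ => rfl⟩
              · obtain ⟨p1, p3⟩ := gB z hz' s2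
                obtain ⟨k1, k2⟩ := i1 z hz'
                rw [ga.1, ga.2, p1, p3]
                refine ⟨by omega, by omega, fun h => ?_⟩
                have := k2 (by omega) (by omega)
                omega
            · obtain ⟨q1, q3⟩ := gB u hu' s1
              rcases (hkeys z).1 hz with hz' | hz' | hz'
              · have hua := h2 u hu'
                have haz := h1 z hz'
                have hd := hdom a ha (by omega)
                rw [q3, ga.2] at hd
                have h0 := key0 u hu' (by omega)
                obtain ⟨p1, p3⟩ := gC z hz'
                rw [q1, p1, q3, p3]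
                exact ⟨by omega, by omega, fun _ => by omega⟩
              · subst hz'
                have hd := hdom z hz (by omega)
                rw [q3, ga.2] at hd
                have h0 := key0 u hu' (by omega)
                rw [q1, ga.1, q3, ga.2]
                exact ⟨by omega, by omega, fun _ => by omega⟩
              · obtain ⟨j1, j2, j3⟩ := i2 u hu' z hz' (Or.inl ⟨s1, s2⟩) (fun k hk hb' => by
                  have := hdom k ((hkeys k).2 (Or.inr (Or.inr hk))) hb'
                  rw [wd_r (h2 k hk), wd_r (h2 u hu')] at this
                  omega)
                obtain ⟨p1, p3⟩ := gB z hz' s2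
                rw [q1, p1, q3, p3]
                refine ⟨by omega, by omega, fun h => ?_⟩
                have := j3 (by omega)
                omega
          · have hu' : u ∈ keys (fg r) := by
              rcases (hkeys u).1 hu with h | h | h
              · have := h1 u h; omega
              · omega
              · exact h
            have hz' : z ∈ keys (fg r) := by
              rcases (hkeys z).1 hz with h | h | h
              · have := h1 z h; omega
              · omega
              · exact h
            obtain ⟨j1, j2, j3⟩ := i2 u hu' z hz' (Or.inr ⟨s1, s2⟩) (fun k hk hb' => by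
              have := hdom k ((hkeys k).2 (Or.inr (Or.inr hk))) hb'
              rw [wd_r (h2 k hk), wd_r (h2 u hu')] at this
              omega)
            obtain ⟨q1, q2, q3⟩ := gA u hu' s1
            obtain ⟨p1, p2, p3⟩ := gA z hz' s2
            rw [q1, p1, q3, p3]
            refine ⟨by omega, by omega, fun h => ?_⟩
            have := j3 (by omega)
            omega

end Pool.Agent.Helper76.CW
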