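import Pool.Agent.H581R2.SplayDef

set_option autoImplicit false

/-!
# Executions with a cache of recently requested keys at the top of the tree
-/

namespace Pool.Agent.Helper76.CW

open Pool.Agent.H581R2.Splay Tr

/-- `z` is one of the `k` distinct keys requested last; `H` lists the requests, the last one
first. -/
def Recent (k : ℕ) (H : List ℕ) (z : ℕ) : Prop :=
  ∃ n, z ∈ H.take n ∧ (H.take n).toFinset.card ≤ k

/-- `D` contains with every key of the tree its parent: it is a part at the top of the tree. -/
def Top (D : Finset ℕ) : Tr → Prop
  | nil => True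
  | node a l r => (a ∈ D ∧ Top D l ∧ Top D r) ∨ (∀ k ∈ keys (node a l r), k ∉ D)

/-- `RotIn D t t'`: `t'` arises from `t` by one rotation, of an edge between two keys in `D`. -/
inductive RotIn (D : Finset ℕ) : Tr → Tr → Prop
  | right (a b : ℕ) (A B C : Tr) : a ∈ D → b ∈ D →
      RotIn D (node a (node b A B) C) (node b A (node a B C))
  | left (a b : ℕ) (A B C : Tr) : a ∈ D → b ∈ D →
      RotIn D (node b A (node a B C)) (node a (node b A B) C)
  | inl (a : ℕ) (L L' R : Tr) : RotIn D L L' → RotIn D (node a L R) (node a L' R)
  | inr (a : ℕ) (L R R' : Tr) : RotIn D R R' → RotIn D (node a L R) (node a L R')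

/-- `CacheRun k H T D X c`: there is an execution for the requests `X` which starts, after the
requests `H`, with the tree `T` and the cache `D`, and proceeds as follows.  The requested key `x`
is searched in the tree (cost `1 + dep x T`).  Then either nothing happens or `x` is moved to the
root and put into the cache.  Then any number of rotations of edges between two keys in the cache
are performed.  Then some keys may leave the cache, so that it is a part at the top of the tree and
consists of keys among the `k` distinct keys requested last.  Only the searches are charged; `c` is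
their cost. -/
inductive CacheRun (k : ℕ) : List ℕ → Tr → Finset ℕ → List ℕ → ℕ → Prop
  | nil (H : List ℕ) (T : Tr) (D : Finset ℕ) : CacheRun k H T D [] 0
  | cons (H : List ℕ) (T T₁ T₂ : Tr) (D D₁ D₂ : Finset ℕ) (x : ℕ) (X : List ℕ) (c : ℕ) :
      ((T₁ = T ∧ D₁ = D) ∨ (T₁ = toRoot x T ∧ D₁ = insert x D)) →
      Relation.ReflTransGen (RotIn D₁) T₁ T₂ →
      D₂ ⊆ D₁ → Top D₂ T₂ → (∀ y ∈ D₂, Recent k (x :: H) y) →
      CacheRun k (x :: H) T₂ D₂ X c → CacheRun k H T D (x :: X) (1 + dep x T + c)

end Pool.Agent.Helper76.CW
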