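import Pool.Agent.Helper76.CW.CwC
import Pool.Agent.Helper76.CW.CwM

set_option autoImplicit false

/-!
# The changes of the potential
-/

namespace Pool.Agent.Helper76.CW

open Pool.Agent.H581R2.Splay Tr
open Pool.Agent.TH22.SP (ancs Meets meets_node ancs_of_meets le_ancs)

theorem infix_between {K I : List ℕ} (hs : K.Pairwise (· < ·)) (hI : I <:+: K) {u z k : ℕ}
    (hu : u ∈ I) (hz : z ∈ I) (hk : k ∈ K) (hb : (u ≤ k ∧ k ≤ z) ∨ (z ≤ k ∧ k ≤ u)) : k ∈ I := by
  obtain ⟨A, C, rfl⟩ := hI
  rw [List.pairwise_append, List.pairwise_append] at hs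
  obtain ⟨⟨_, _, hAB⟩, _, hC⟩ := hs
  rw [List.mem_append, List.mem_append] at hk
  rcases hk with (hk | hk) | hk
  · have q1 := hAB k hk u hu
    have q2 := hAB k hk z hz
    omega
  · exact hk
  · have q1 := hC u (List.mem_append.2 (Or.inr hu)) k hk
    have q2 := hC z (List.mem_append.2 (Or.inr hz)) k hk
    omega

/-- the comparison on an interval on one side of `x` -/
theorem side_cmp {t : MT} {x : ℕ} (hb : IsBST (fg t)) (hx : x ∈ keys (fg t)) {I : List ℕ}
    (hI : I ≠ []) (hK : I <:+: keys (fg t)) (hside : (∀ k ∈ I, k < x) ∨ (∀ k ∈ I, x < k)) :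
    ∃ m ∈ I, ∀ z ∈ I, wd m t ≤ wd z t ∧ gs x t m ≤ gs x t z ∧
      gs x t z + wd m t ≤ wd z t + gs x t m ∧ (gs x t z = gs x t m → wd z t = wd m t) := by
  obtain ⟨m, hm, e⟩ := lo_att (f := fun z => wd z t) hI
  refine ⟨m, hm, fun z hz => ?_⟩
  have h1 : ∀ k ∈ I, wd m t ≤ wd k t := fun k hk => by
    rw [e]; exact lo_le (f := fun z => wd z t) hk
  have h2 := (split_cmp x t hb hx).2 m (hK.subset hm) z (hK.subset hz)
    (by
      rcases hside with h | h
      · left; exact ⟨h m hm, h z hz⟩
      · right; exact ⟨h m hm, h z hz⟩)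
    (fun k hk hbk => h1 k (infix_between hb hK hm hz hk hbk))
  exact ⟨h1 z hz, h2.1, h2.2.1, h2.2.2⟩

theorem tot_side {La : ℕ} {t : MT} {x : ℕ} (hb : IsBST (fg t)) (hx : x ∈ keys (fg t)) :
    ∀ s : Tr, keys s <:+: keys (fg t) → ((∀ k ∈ keys s, k < x) ∨ (∀ k ∈ keys s, x < k)) →
      Tot La (gs x t) s ≤ Tot La (fun z => wd z t) s := by
  intro s
  induction s with
  | nil => intro _ _; simp [Tot]
  | node a l r ihl ihr =>
    intro hK hside
    have hl : keys l <:+: keys (node a l r) := ⟨[], a :: keys r, by simp [keys]⟩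
    have hr : keys r <:+: keys (node a l r) := ⟨keys l ++ [a], [], by simp [keys]⟩
    have i1 := ihl (hl.trans hK) (by
      rcases hside with h | h
      · left; exact fun k hk => h k (hl.subset hk)
      · right; exact fun k hk => h k (hl.subset hk))
    have i2 := ihr (hr.trans hK) (by
      rcases hside with h | h
      · left; exact fun k hk => h k (hr.subset hk)
      · right; exact fun k hk => h k (hr.subset hk))
    obtain ⟨m, hm, h⟩ := side_cmp hb hx (by simp [keys]) hK hside
    have h3 := node_le (La := La) (f := fun z => wd z t) (g := gs x t) hm h (a := a)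
      (by simp [keys])
    simp only [Tot]
    linarith

/-- the change of the potential when `x` is moved to the root of the reference tree -/
theorem tot_root {La B : ℕ} (hLa : Nat.log 2 B + 1 = La) {t : MT} {x : ℕ} {l r : Tr}
    (hb : IsBST (fg t)) (hx : x ∈ keys (fg t)) (hk : keys (node x l r) = keys (fg t))
    (hc : Cap B (gs x t) (keys (fg t))) :
    Tot La (gs x t) (node x l r) ≤ Tot La (fun z => wd z t) (node x l r) + ((La : ℤ) - 1) := by
  have hb' : IsBST (node x l r) := by unfold IsBST; rw [hk]; exact hb
  obtain ⟨_, _, g3, g4⟩ := bst_node hb'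
  have p1 := tot_side (La := La) hb hx l (by rw [← hk]; exact ⟨[], x :: keys r, by simp [keys]⟩)
    (Or.inl g3)
  have p2 := tot_side (La := La) hb hx r (by rw [← hk]; exact ⟨keys l ++ [x], [], by simp [keys]⟩)
    (Or.inr g4)
  have p3 := rho_le hLa hc (I := keys (node x l r)) (by simp [keys]) (by rw [hk])
  have p4 := rho_ge La (fun z => wd z t) (I := keys (node x l r)) (x := x) (by simp [keys])
  have p5 : gs x t x = 0 := by simp [gs]
  simp only [Tot]
  rw [p5]
  push_cast
  linarith

theorem cap_root {B : ℕ} {t : MT} {x : ℕ} (hb : IsBST (fg t)) (hx : x ∈ keys (fg t))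
    (hc : Cap B (fun z => wd z t) (keys (fg t)))
    (h0 : ∀ I : List ℕ, I <:+: keys (fg t) → I.countP (fun z => gs x t z = 0) ≤ B) :
    Cap B (gs x t) (keys (fg t)) := by
  intro I hI hK
  by_cases hxI : x ∈ I
  · have e : lo (gs x t) I = 0 := by
      have := lo_le (f := gs x t) hxI
      have e2 : gs x t x = 0 := by simp [gs]
      omega
    unfold cnt
    rw [e]
    exact h0 I hK
  · have hside : (∀ k ∈ I, k < x) ∨ (∀ k ∈ I, x < k) := by
      by_contra hcon
      push Not at hcon
      obtain ⟨⟨u, hu, hu2⟩, ⟨z, hz, hz2⟩⟩ := hcon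
      exact hxI (infix_between hb hK hu hz hx (Or.inr ⟨hz2, hu2⟩))
    obtain ⟨m, hm, h⟩ := side_cmp hb hx hI hK hside
    exact (cnt_le_of (f := fun z => wd z t) (g := gs x t) hm h).trans (hc I hI hK)

/-! ### Keys leave the cache -/

/-- mark the highest unmarked keys that are not in `D` -/
def demote (D : Finset ℕ) : MT → MT
  | MT.nil => MT.nil
  | MT.node a true l r => MT.node a true l r
  | MT.node a false l r =>
      if a ∈ D then MT.node a false (demote D l) (demote D r) else MT.node a true l r

theorem fg_demote (D : Finset ℕ) : ∀ t : MT, fg (demote D t) = fg t := by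
  intro t
  induction t with
  | nil => rfl
  | node a m l r ihl ihr =>
    cases m with
    | true => rfl
    | false =>
      simp only [demote]
      split_ifs with h
      · simp only [fg]; rw [ihl, ihr]
      · rfl

theorem demote_cmp (D : Finset ℕ) : ∀ t : MT, IsBST (fg t) →
    (∀ z ∈ keys (fg t), wd z t ≤ wd z (demote D t) ∧ wd z (demote D t) ≤ wd z t + 1 ∧
      (wd z (demote D t) = 0 → z ∈ D) ∧
      (Top D (fg t) → z ∈ D → wd z t = 0 → wd z (demote D t) = 0)) ∧
    (∀ u ∈ keys (fg t), ∀ z ∈ keys (fg t),
      (∀ k ∈ keys (fg t), ((u ≤ k ∧ k ≤ z) ∨ (z ≤ k ∧ k ≤ u)) → 1 ≤ wd k (demote D t)) →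
      wd u (demote D t) + wd z t = wd z (demote D t) + wd u t) := by
  intro t
  induction t with
  | nil => intro _; simp [fg, keys]
  | node a m l r ihl ihr =>
    intro hb
    obtain ⟨hl, hr, h1, h2⟩ := bst_node (l := fg l) (r := fg r) (a := a) hb
    have hkeys : ∀ k, k ∈ keys (fg (MT.node a m l r)) ↔ k ∈ keys (fg l) ∨ k = a ∨ k ∈ keys (fg r) := by
      intro k; simp [fg, keys]
    cases m with
    | true =>
      refine ⟨fun z hz => ⟨le_rfl, by simp only [demote]; omega, fun h => ?_, fun _ _ h => h⟩,
        fun u _ z _ _ => by simp only [demote]; omega⟩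
      exfalso
      simp only [demote, wd, Bool.toNat_true] at h
      omega
    | false =>
      by_cases ha : a ∈ D
      · have e : demote D (MT.node a false l r) = MT.node a false (demote D l) (demote D r) := by
          simp only [demote]; rw [if_pos ha]
        rw [e]
        obtain ⟨i1, i2⟩ := ihl hl
        obtain ⟨j1, j2⟩ := ihr hr
        have dl : ∀ z ∈ keys (fg l), wd z (MT.node a false (demote D l) (demote D r)) =
            wd z (demote D l) ∧ wd z (MT.node a false l r) = wd z l := fun z hz =>
          ⟨by rw [wd_l (h1 z hz)]; simp, by rw [wd_l (h1 z hz)]; simp⟩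
        have dr : ∀ z ∈ keys (fg r), wd z (MT.node a false (demote D l) (demote D r)) =
            wd z (demote D r) ∧ wd z (MT.node a false l r) = wd z r := fun z hz =>
          ⟨by rw [wd_r (h2 z hz)]; simp, by rw [wd_r (h2 z hz)]; simp⟩
        have da : wd a (MT.node a false (demote D l) (demote D r)) = 0 ∧
            wd a (MT.node a false l r) = 0 := ⟨by simp [wd], by simp [wd]⟩
        have ha' : a ∈ keys (fg (MT.node a false l r)) := by rw [hkeys]; simp
        have topD : Top D (fg (MT.node a false l r)) → Top D (fg l) ∧ Top D (fg r) := by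
          intro h
          rcases h with h | h
          · exact h.2
          · exact absurd ha (h a (by simp [keys]))
        refine ⟨?_, ?_⟩
        · intro z hz
          rcases (hkeys z).1 hz with hz' | hz' | hz'
          · rw [(dl z hz').1, (dl z hz').2]
            obtain ⟨k1, k2, k3, k4⟩ := i1 z hz'
            exact ⟨k1, k2, k3, fun hT hD h0 => k4 (topD hT).1 hD h0⟩
          · subst hz'
            rw [da.1, da.2]
            exact ⟨le_rfl, by omega, fun _ => ha, fun _ _ _ => rfl⟩
          · rw [(dr z hz').1, (dr z hz').2]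
            obtain ⟨k1, k2, k3, k4⟩ := j1 z hz'
            exact ⟨k1, k2, k3, fun hT hD h0 => k4 (topD hT).2 hD h0⟩
        · intro u hu z hz hdom
          have hno : ¬ ((u ≤ a ∧ a ≤ z) ∨ (z ≤ a ∧ a ≤ u)) := by
            intro h
            have := hdom a ha' h
            rw [da.1] at this
            omega
          rcases (hkeys u).1 hu with hu' | hu' | hu'
          · have q1 := h1 u hu'
            rcases (hkeys z).1 hz with hz' | hz' | hz'
            · rw [(dl z hz').1, (dl z hz').2, (dl u hu').1, (dl u hu').2]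
              exact i2 u hu' z hz' fun k hk hbk => by
                have := hdom k ((hkeys k).2 (Or.inl hk)) hbk
                rwa [(dl k hk).1] at this
            · omega
            · have := h2 z hz'; omega
          · omega
          · have q1 := h2 u hu'
            rcases (hkeys z).1 hz with hz' | hz' | hz'
            · have := h1 z hz'; omega
            · omega
            · rw [(dr z hz').1, (dr z hz').2, (dr u hu').1, (dr u hu').2]
              exact j2 u hu' z hz' fun k hk hbk => by
                have := hdom k ((hkeys k).2 (Or.inr (Or.inr hk))) hbk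
                rwa [(dr k hk).1] at this
      · have e : demote D (MT.node a false l r) = MT.node a true l r := by
          simp only [demote]; rw [if_neg ha]
        rw [e]
        have ez : ∀ z, wd z (MT.node a true l r) = wd z (MT.node a false l r) + 1 := by
          intro z; simp only [wd, Bool.toNat_true, Bool.toNat_false]; omega
        refine ⟨fun z hz => ⟨by rw [ez]; omega, by rw [ez], fun h => ?_, fun hT hD _ => ?_⟩, ?_⟩
        · rw [ez] at h; omega
        · exfalso
          rcases hT with h | h
          · exact ha h.1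
          · exact h z hz hD
        · intro u _ z _ _
          rw [ez, ez]; omega

/-- the comparison on an interval without unmarked keys -/
theorem demote_side {D : Finset ℕ} {t : MT} (hb : IsBST (fg t)) {I : List ℕ} (hI : I ≠ [])
    (hK : I <:+: keys (fg t)) (h1 : ∀ k ∈ I, 1 ≤ wd k (demote D t)) :
    ∃ m ∈ I, ∀ z ∈ I, wd m t ≤ wd z t ∧ wd m (demote D t) ≤ wd z (demote D t) ∧
      wd z (demote D t) + wd m t ≤ wd z t + wd m (demote D t) ∧
      (wd z (demote D t) = wd m (demote D t) → wd z t = wd m t) := by
  obtain ⟨m, hm, e⟩ := lo_att (f := fun z => wd z t) hI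
  refine ⟨m, hm, fun z hz => ?_⟩
  have h0 : wd m t ≤ wd z t := by rw [e]; exact lo_le (f := fun z => wd z t) hz
  have h2 := (demote_cmp D t hb).2 m (hK.subset hm) z (hK.subset hz)
    (fun k hk hbk => h1 k (infix_between hb hK hm hz hk hbk))
  exact ⟨h0, by omega, by omega, fun h => by omega⟩

theorem demote_zero {D : Finset ℕ} {t : MT} (hb : IsBST (fg t)) {I : List ℕ}
    (hK : I <:+: keys (fg t)) {k : ℕ} (hk : k ∈ I) (h0 : wd k (demote D t) = 0) :
    lo (fun z => wd z (demote D t)) I = 0 ∧ lo (fun z => wd z t) I = 0 ∧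
      cnt (fun z => wd z (demote D t)) I ≤ cnt (fun z => wd z t) I := by
  have e1 : lo (fun z => wd z (demote D t)) I = 0 := by
    have := lo_le (f := fun z => wd z (demote D t)) hk
    omega
  have h1 := ((demote_cmp D t hb).1 k (hK.subset hk)).1
  have e2 : lo (fun z => wd z t) I = 0 := by
    have := lo_le (f := fun z => wd z t) hk
    omega
  refine ⟨e1, e2, ?_⟩
  unfold cnt
  rw [e1, e2]
  refine List.countP_mono_left fun z hz he => ?_
  simp only [decide_eq_true_eq] at he ⊢
  have := ((demote_cmp D t hb).1 z (hK.subset hz)).1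
  omega

theorem cap_demote {B : ℕ} {D : Finset ℕ} {t : MT} (hb : IsBST (fg t))
    (hc : Cap B (fun z => wd z t) (keys (fg t))) :
    Cap B (fun z => wd z (demote D t)) (keys (fg t)) := by
  intro I hI hK
  by_cases h : ∀ k ∈ I, 1 ≤ wd k (demote D t)
  · obtain ⟨m, hm, h2⟩ := demote_side hb hI hK h
    exact (cnt_le_of (f := fun z => wd z t) (g := fun z => wd z (demote D t)) hm h2).trans
      (hc I hI hK)
  · push Not at h
    obtain ⟨k, hk, h0⟩ := h
    exact (demote_zero hb hK hk (by omega)).2.2.trans (hc I hI hK)

/-- the change of the potential when keys leave the cache -/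
theorem tot_demote {La : ℕ} {D E : Finset ℕ} {t : MT} (hb : IsBST (fg t))
    (hE : ∀ z ∈ keys (fg t), wd z (demote D t) = 0 → z ∈ E) :
    ∀ s : Tr, keys s <:+: keys (fg t) → Tot La (fun z => wd z (demote D t)) s ≤
      Tot La (fun z => wd z t) s + (La : ℤ) * (ancs E s : ℤ) := by
  intro s
  induction s with
  | nil => intro _; simp [Tot, ancs]
  | node a l r ihl ihr =>
    intro hK
    have hl : keys l <:+: keys (node a l r) := ⟨[], a :: keys r, by simp [keys]⟩
    have hr : keys r <:+: keys (node a l r) := ⟨keys l ++ [a], [], by simp [keys]⟩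
    have i1 := ihl (hl.trans hK)
    have i2 := ihr (hr.trans hK)
    by_cases h : ∀ k ∈ keys (node a l r), 1 ≤ wd k (demote D t)
    · obtain ⟨m, hm, h2⟩ := demote_side hb (by simp [keys]) hK h
      have h3 := node_le (La := La) (f := fun z => wd z t) (g := fun z => wd z (demote D t)) hm h2
        (a := a) (by simp [keys])
      have h4 : ((ancs E l : ℤ)) + (ancs E r : ℤ) ≤ (ancs E (node a l r) : ℤ) := by
        exact_mod_cast le_ancs E a l r
      have h5 := mul_le_mul_of_nonneg_left h4 (show (0 : ℤ) ≤ (La : ℤ) by positivity)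
      rw [mul_add] at h5
      simp only [Tot]
      linarith
    · push Not at h
      obtain ⟨k, hk, h0⟩ := h
      have h00 : wd k (demote D t) = 0 := by omega
      obtain ⟨z1, z2, z3⟩ := demote_zero hb hK hk h00
      have hm : Meets E (node a l r) := ⟨k, hk, hE k (hK.subset hk) h00⟩
      rw [ancs_of_meets hm]
      have h4 := Nat.log_mono_right (b := 2) z3
      have h5 : (Nat.log 2 (cnt (fun z => wd z (demote D t)) (keys (node a l r))) : ℤ) ≤
          (Nat.log 2 (cnt (fun z => wd z t) (keys (node a l r))) : ℤ) := by exact_mod_cast h4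
      have h6 : (wd a (demote D t) : ℤ) ≤ (wd a t : ℤ) + 1 := by
        exact_mod_cast ((demote_cmp D t hb).1 a (hK.subset (by simp [keys]))).2.1
      have h7 := mul_le_mul_of_nonneg_left h6 (show (0 : ℤ) ≤ (La : ℤ) by positivity)
      rw [mul_add, mul_one] at h7
      simp only [Tot, rho]
      rw [z1, z2]
      push_cast
      rw [mul_add, mul_add, mul_one]
      linarith

end Pool.Agent.Helper76.CW
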