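import Pool.Agent.Helper76.CW.CwD

set_option autoImplicit false

/-!
# Splaying and executions with a cache
-/

namespace Pool.Agent.Helper76.CW

open Pool.Agent.H581R2.Splay Tr
open Pool.Agent.TH22.SP (ancs Meets Inv inv_cons inv_nil clos_bound ancs_not_meets bst_splay)

/-! ### Recent keys -/

theorem Recent.mono {k k' : ℕ} {H : List ℕ} {z : ℕ} (h : Recent k H z) (hk : k ≤ k') :
    Recent k' H z := by
  obtain ⟨n, h1, h2⟩ := h
  exact ⟨n, h1, h2.trans hk⟩

theorem Recent.cons {k : ℕ} {H : List ℕ} {z : ℕ} (x : ℕ) (h : Recent k H z) :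
    Recent (k + 1) (x :: H) z := by
  obtain ⟨n, h1, h2⟩ := h
  refine ⟨n + 1, by simp [h1], ?_⟩
  rw [List.take_succ_cons, List.toFinset_cons]
  have := Finset.card_insert_le x (H.take n).toFinset
  omega

theorem recent_self {k : ℕ} (hk : 1 ≤ k) (x : ℕ) (H : List ℕ) : Recent k (x :: H) x :=
  ⟨1, by simp, by simpa using hk⟩

theorem recent_uniform {m : ℕ} {H : List ℕ} (D : Finset ℕ) : (∀ z ∈ D, Recent m H z) →
    ∃ n, (∀ z ∈ D, z ∈ H.take n) ∧ (H.take n).toFinset.card ≤ m := by
  induction D using Finset.induction_on with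
  | empty => intro _; exact ⟨0, by simp, by simp⟩
  | insert a D _ ih =>
    intro h
    obtain ⟨n, h1, h2⟩ := ih fun z hz => h z (Finset.mem_insert_of_mem hz)
    obtain ⟨n', h3, h4⟩ := h a (Finset.mem_insert_self a D)
    rcases le_total n n' with hn | hn
    · refine ⟨n', fun z hz => ?_, h4⟩
      rcases Finset.mem_insert.1 hz with hz | hz
      · rw [hz]; exact h3
      · exact (List.take_prefix_take_left hn).subset (h1 z hz)
    · refine ⟨n, fun z hz => ?_, h2⟩
      rcases Finset.mem_insert.1 hz with hz | hz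
      · rw [hz]; exact (List.take_prefix_take_left hn).subset h3
      · exact h1 z hz

theorem nodup_of_bst {t : Tr} (h : IsBST t) : (keys t).Nodup :=
  List.Pairwise.imp (fun {a b} hab => by omega) h

theorem countP_zero_le {m : ℕ} {H : List ℕ} {g : ℕ → ℕ} {T : Tr} (hb : IsBST T)
    (h : ∀ z ∈ keys T, g z = 0 → Recent m H z) {I : List ℕ} (hI : I <:+: keys T) :
    I.countP (fun z => g z = 0) ≤ m := by
  obtain ⟨n, h1, h2⟩ := recent_uniform (m := m) (H := H) ((I.filter fun z => g z = 0).toFinset)
    (fun z hz => by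
      rw [List.mem_toFinset, List.mem_filter] at hz
      exact h z (hI.subset hz.1) (by simpa using hz.2))
  rw [List.countP_eq_length_filter]
  have hnd : (I.filter fun z => g z = 0).Nodup :=
    ((nodup_of_bst hb).sublist hI.sublist).filter _
  rw [← List.toFinset_card_of_nodup hnd]
  refine (Finset.card_le_card fun z hz => ?_).trans h2
  rw [List.mem_toFinset]
  exact h1 z hz

/-! ### Rotations in the cache -/

theorem rotIn_lift {D : Finset ℕ} {T T' : Tr} (h : RotIn D T T') : ∀ t : MT, fg t = T →
    IsBST T → (∀ d ∈ D, d ∈ keys T → wd d t = 0) →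
    ∃ t', fg t' = T' ∧ keys T' = keys T ∧ ∀ z ∈ keys T, wd z t' = wd z t := by
  induction h with
  | right a b A B C ha hb =>
    intro t ht hB hD
    obtain ⟨g1, _, g3, _⟩ := bst_node hB
    have hba : b < a := g3 b (by simp [keys])
    cases t with
    | nil => simp [fg] at ht
    | node a' m l r =>
      simp only [fg, Tr.node.injEq] at ht
      obtain ⟨rfl, hl, hr⟩ := ht
      cases l with
      | nil => simp [fg] at hl
      | node b' m' l1 l2 =>
        simp only [fg, Tr.node.injEq] at hl
        obtain ⟨rfl, hl1, hl2⟩ := hl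
        have e1 := hD a' ha (by simp [keys])
        have e2 := hD b' hb (by simp [keys])
        simp only [wd] at e1 e2
        rw [if_pos trivial] at e1
        rw [if_neg (by omega), if_pos hba, if_pos trivial] at e2
        refine ⟨MT.node b' false l1 (MT.node a' false l2 r), by simp [fg, hl1, hl2, hr],
          by simp [keys], fun z _ => ?_⟩
        simp only [wd, Bool.toNat_false]
        split_ifs <;> omega
  | left a b A B C ha hb =>
    intro t ht hB hD
    obtain ⟨_, g2, _, g4⟩ := bst_node hB
    have hba : b < a := g4 a (by simp [keys])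
    cases t with
    | nil => simp [fg] at ht
    | node b' m l r =>
      simp only [fg, Tr.node.injEq] at ht
      obtain ⟨rfl, hl, hr⟩ := ht
      cases r with
      | nil => simp [fg] at hr
      | node a' m' r1 r2 =>
        simp only [fg, Tr.node.injEq] at hr
        obtain ⟨rfl, hr1, hr2⟩ := hr
        have e1 := hD b' hb (by simp [keys])
        have e2 := hD a' ha (by simp [keys])
        simp only [wd] at e1 e2
        rw [if_pos trivial] at e1
        rw [if_neg (by omega), if_neg (by omega), if_pos trivial] at e2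
        refine ⟨MT.node a' false (MT.node b' false l r1) r2, by simp [fg, hl, hr1, hr2],
          by simp [keys], fun z _ => ?_⟩
        simp only [wd, Bool.toNat_false]
        split_ifs <;> omega
  | inl a L L' R _ ih =>
    intro t ht hB hD
    obtain ⟨g1, g2, g3, g4⟩ := bst_node hB
    cases t with
    | nil => simp [fg] at ht
    | node a' m l r =>
      simp only [fg, Tr.node.injEq] at ht
      obtain ⟨rfl, hl, hr⟩ := ht
      obtain ⟨l', h1, h2, h3⟩ := ih l hl g1 (fun d hd hdL => by
        have := hD d hd (by simp [keys, hdL])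
        rw [wd_l (g3 d hdL)] at this
        omega)
      refine ⟨MT.node a' m l' r, by simp [fg, h1, hr], by simp [keys, h2], fun z hz => ?_⟩
      simp only [keys, List.mem_append, List.mem_cons] at hz
      rcases hz with hz | hz | hz
      · rw [wd_l (g3 z hz), wd_l (g3 z hz), h3 z hz]
      · subst hz; rw [wd_a, wd_a]
      · rw [wd_r (g4 z hz), wd_r (g4 z hz)]
  | inr a L R R' _ ih =>
    intro t ht hB hD
    obtain ⟨g1, g2, g3, g4⟩ := bst_node hB
    cases t with
    | nil => simp [fg] at ht
    | node a' m l r =>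
      simp only [fg, Tr.node.injEq] at ht
      obtain ⟨rfl, hl, hr⟩ := ht
      obtain ⟨r', h1, h2, h3⟩ := ih r hr g2 (fun d hd hdR => by
        have := hD d hd (by simp [keys, hdR])
        rw [wd_r (g4 d hdR)] at this
        omega)
      refine ⟨MT.node a' m l r', by simp [fg, h1, hl], by simp [keys, h2], fun z hz => ?_⟩
      simp only [keys, List.mem_append, List.mem_cons] at hz
      rcases hz with hz | hz | hz
      · rw [wd_l (g3 z hz), wd_l (g3 z hz)]
      · subst hz; rw [wd_a, wd_a]
      · rw [wd_r (g4 z hz), wd_r (g4 z hz), h3 z hz]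

theorem rots_lift {D : Finset ℕ} {T T' : Tr} (h : Relation.ReflTransGen (RotIn D) T T') :
    ∀ t : MT, fg t = T → IsBST T → (∀ d ∈ D, d ∈ keys T → wd d t = 0) →
    ∃ t', fg t' = T' ∧ keys T' = keys T ∧ ∀ z ∈ keys T, wd z t' = wd z t := by
  induction h with
  | refl => intro t ht _ _; exact ⟨t, ht, rfl, fun _ _ => rfl⟩
  | tail _ hr ih =>
    intro t ht hB hD
    obtain ⟨t1, h1, h2, h3⟩ := ih t ht hB hD
    obtain ⟨t2, h4, h5, h6⟩ := rotIn_lift hr t1 h1 (by unfold IsBST; rw [h2]; exact hB)
      (fun d hd hk => by rw [h3 d (by rwa [h2] at hk)]; exact hD d hd (by rwa [h2] at hk))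
    exact ⟨t2, h4, h5.trans h2, fun z hz => by rw [h6 z (by rw [h2]; exact hz), h3 z hz]⟩

/-! ### The initial state -/

/-- every node is marked -/
def ini : Tr → MT
  | nil => MT.nil
  | node a l r => MT.node a true (ini l) (ini r)

theorem fg_ini : ∀ t : Tr, fg (ini t) = t := by
  intro t
  induction t with
  | nil => rfl
  | node a l r ihl ihr => simp [ini, fg, ihl, ihr]

theorem wd_ini : ∀ t : Tr, IsBST t → ∀ z ∈ keys t, wd z (ini t) = dep z t + 1 := by
  intro t
  induction t with
  | nil => intro _ z hz; simp [keys] at hz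
  | node a l r ihl ihr =>
    intro hb z hz
    obtain ⟨g1, g2, g3, g4⟩ := bst_node hb
    simp only [keys, List.mem_append, List.mem_cons] at hz
    simp only [ini]
    rcases hz with hz | hz | hz
    · rw [wd_l (g3 z hz), dep_l (g3 z hz), ihl g1 z hz]; simp; omega
    · subst hz; rw [wd_a, dep_a]; simp
    · rw [wd_r (g4 z hz), dep_r (g4 z hz), ihr g2 z hz]; simp; omega

theorem cap_ini {B : ℕ} (hB : 1 ≤ B) {T : Tr} (hb : IsBST T) :
    Cap B (fun z => wd z (ini T)) (keys T) := by
  intro I hI hK
  refine le_trans ?_ hB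
  obtain ⟨m, hm, e⟩ := lo_att (f := fun z => wd z (ini T)) hI
  unfold cnt
  rw [List.countP_eq_length_filter]
  have hnd : (I.filter fun k => wd k (ini T) = lo (fun z => wd z (ini T)) I).Nodup :=
    ((nodup_of_bst hb).sublist hK.sublist).filter _
  have key : ∀ k ∈ I, ∀ k' ∈ I, k < k' → wd k (ini T) = lo (fun z => wd z (ini T)) I →
      wd k' (ini T) = lo (fun z => wd z (ini T)) I → False := by
    intro k hk k' hk' hlt h1 h2
    have w1 := wd_ini T hb k (hK.subset hk)
    have w2 := wd_ini T hb k' (hK.subset hk')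
    obtain ⟨j, hj, j1, j2, j3⟩ := good_dep T hb k (hK.subset hk) k' (hK.subset hk') hlt
      (by show dep k T = dep k' T; omega)
    have hjI := infix_between hb hK hk hk' hj (by omega)
    have w3 := wd_ini T hb j hj
    have w4 := lo_le (f := fun z => wd z (ini T)) hjI
    have j3' : dep j T < dep k T := j3
    have w5 : lo (fun z => wd z (ini T)) I ≤ wd j (ini T) := w4
    omega
  rw [← List.toFinset_card_of_nodup hnd]
  refine (Finset.card_le_card (t := {m}) fun z hz => ?_).trans (by simp)
  rw [List.mem_toFinset, List.mem_filter] at hz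
  obtain ⟨hz1, hz2⟩ := hz
  rw [Finset.mem_singleton]
  have hz3 : wd z (ini T) = lo (fun z => wd z (ini T)) I := by simpa using hz2
  have e' : wd m (ini T) = lo (fun z => wd z (ini T)) I := e
  rcases lt_trichotomy z m with h | h | h
  · exact (key z hz1 m hm h hz3 e').elim
  · exact h
  · exact (key m hm z hz1 h e' hz3).elim

theorem tot_ini {La : ℕ} {T : Tr} (hb : IsBST T) : Tot La (fun z => wd z (ini T)) T ≤ 0 := by
  have key : ∀ (s : Tr) (c : ℕ), keys s <:+: keys T → IsBST s →
      (∀ z ∈ keys s, wd z (ini T) = dep z s + c) → Tot La (fun z => wd z (ini T)) s ≤ 0 := by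
    intro s
    induction s with
    | nil => intro _ _ _ _; simp [Tot]
    | node a l r ihl ihr =>
      intro c hK hbs hf
      obtain ⟨g1, g2, g3, g4⟩ := bst_node hbs
      have hl : keys l <:+: keys (node a l r) := ⟨[], a :: keys r, by simp [keys]⟩
      have hr : keys r <:+: keys (node a l r) := ⟨keys l ++ [a], [], by simp [keys]⟩
      have i1 := ihl (c + 1) (hl.trans hK) g1 (fun z hz => by
        rw [hf z (hl.subset hz), dep_l (g3 z hz)]; omega)
      have i2 := ihr (c + 1) (hr.trans hK) g2 (fun z hz => by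
        rw [hf z (hr.subset hz), dep_r (g4 z hz)]; omega)
      have ha : wd a (ini T) = c := by rw [hf a (by simp [keys]), dep_a]; omega
      have hlo : lo (fun z => wd z (ini T)) (keys (node a l r)) = c := by
        have := lo_eq (f := fun z => wd z (ini T)) (I := keys (node a l r)) (m := a)
          (by simp [keys]) (fun z hz => by show wd a (ini T) ≤ wd z (ini T); rw [hf z hz]; omega)
        rw [this]; exact ha
      have hc := cap_ini (B := 1) le_rfl hb (keys (node a l r)) (by simp [keys]) hK
      have hlog : Nat.log 2 (cnt (fun z => wd z (ini T)) (keys (node a l r))) = 0 := by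
        rw [Nat.log_eq_zero_iff]; left; omega
      simp only [Tot, rho]
      rw [hlo, hlog, ha]
      push_cast
      linarith
  exact key T 1 List.infix_rfl hb fun z hz => wd_ini T hb z hz

/-! ### The comparison -/

theorem ancs_le_recent {k : ℕ} {H : List ℕ} {S : Tr} (hI : Inv H S) {n : ℕ}
    (hn : (H.take n).toFinset.card ≤ k) : ancs (H.take n).toFinset S ≤ 2 * k := by
  by_cases h : H.take n = []
  · rw [h, ancs_not_meets]
    · omega
    · rintro ⟨z, _, hz⟩
      simp at hz
  · obtain ⟨a, ha⟩ := List.exists_mem_of_ne_nil _ h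
    have := clos_bound hI ha
    omega

theorem run_aux {k : ℕ} {La : ℕ} (hLa : Nat.log 2 (2 * k) + 1 = La)
    {H : List ℕ} {T : Tr} {D : Finset ℕ} {X : List ℕ} {c : ℕ} (h : CacheRun k H T D X c) :
    ∀ (t : MT) (S : Tr) (j : ℕ), fg t = T → IsBST T → keys S = keys T → (∀ x ∈ X, x ∈ keys T) →
      j < k → (∀ d ∈ D, d ∈ keys T ∧ wd d t = 0) →
      (∀ z ∈ keys T, wd z t = 0 → Recent (k + j) H z) →
      Cap (2 * k) (fun z => wd z t) (keys T) → Inv H S →
      (costSplay S X : ℤ) ≤
        18 * (La : ℤ) * (c : ℤ) + 2 * Tot La (fun z => wd z t) S + 4 * (La : ℤ) * (j : ℤ) := by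
  induction h with
  | nil H T D =>
    intro t S j _ _ _ _ _ _ _ _ _
    have h1 := tot_nonneg La (fun z => wd z t) S
    have h2 : (0 : ℤ) ≤ 4 * (La : ℤ) * (j : ℤ) := by positivity
    simp only [costSplay]
    push_cast
    linarith
  | cons H T T₁ T₂ D D₁ D₂ x X c hstep hrot hsub htop hrec _ ih =>
    intro t S j ht hb hS hX hj hD hZ hC hI
    have hx : x ∈ keys T := hX x (by simp)
    have hbS : IsBST S := by unfold IsBST; rw [hS]; exact hb
    have hxS : x ∈ keys S := by rw [hS]; exact hx
    have hLa1 : (1 : ℤ) ≤ (La : ℤ) := by exact_mod_cast (by omega : 1 ≤ La)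
    -- splaying
    have a1 := tot_splay hLa hbS hxS (f := fun z => wd z t) (by rw [hS]; exact hC)
    have hk1 : keys (splay x S) = keys T := by rw [splay_keys hbS hxS, hS]
    have hI' : Inv (x :: H) (splay x S) := inv_cons hbS hxS hI
    obtain ⟨l, r, hlr⟩ := splay_root x S
    have hdep : (La : ℤ) * (wd x t : ℤ) ≤ (La : ℤ) * (1 + (dep x T : ℤ)) := by
      have := wd_le_dep x t
      rw [ht] at this
      exact mul_le_mul_of_nonneg_left (by exact_mod_cast this) (by positivity)
    have hnn : (0 : ℤ) ≤ (La : ℤ) * (dep x T : ℤ) := by positivity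
    -- moving the key to the root
    obtain ⟨t₁, e1, e2, e3, e4, e5, e6⟩ : ∃ t₁ : MT, fg t₁ = T₁ ∧ keys T₁ = keys T ∧
        (∀ d ∈ D₁, d ∈ keys T ∧ wd d t₁ = 0) ∧
        (∀ z ∈ keys T, wd z t₁ = 0 → Recent (k + (j + 1)) (x :: H) z) ∧
        Cap (2 * k) (fun z => wd z t₁) (keys T) ∧
        Tot La (fun z => wd z t₁) (splay x S) ≤
          Tot La (fun z => wd z t) (splay x S) + ((La : ℤ) - 1) := by
      rcases hstep with ⟨s1, s2⟩ | ⟨s1, s2⟩
      · subst s1; subst s2
        refine ⟨t, ht, rfl, hD, fun z hz h0 => (hZ z hz h0).cons x, hC, ?_⟩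
        linarith
      · subst s1; subst s2
        subst ht
        have hz1 : ∀ z ∈ keys (fg t), gs x t z = 0 → Recent (k + (j + 1)) (x :: H) z := by
          intro z hz h0
          by_cases hzx : z = x
          · rw [hzx]; exact recent_self (by omega) x H
          · exact (hZ z hz (((split_cmp x t hb hx).1 z hz).2 hzx h0)).cons x
        have hcap := cap_root (B := 2 * k) hb hx hC fun I hI2 =>
          (countP_zero_le hb hz1 hI2).trans (by omega)
        refine ⟨MT.node x false (split x t).1 (split x t).2, ?_, ?_, ?_, ?_, ?_, ?_⟩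
        · rw [fg_split x t hb hx]; rfl
        · exact (toRoot_spec x (fg t) hb hx).2
        · intro d hd
          rw [wd_gs]
          rcases Finset.mem_insert.1 hd with hd | hd
          · rw [hd]; exact ⟨hx, by simp [gs]⟩
          · obtain ⟨hdk, hd0⟩ := hD d hd
            have := ((split_cmp x t hb hx).1 d hdk).1
            exact ⟨hdk, by omega⟩
        · intro z hz h0
          rw [wd_gs] at h0
          exact hz1 z hz h0
        · exact cap_congr (fun z _ => wd_gs.symm) hcap
        · rw [hlr] at hk1 ⊢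
          have := tot_root hLa hb hx hk1 hcap
          rw [tot_congr (g := gs x t) _ fun z _ => wd_gs]
          exact this
    -- rotations in the cache
    have hb1 : IsBST T₁ := by unfold IsBST; rw [e2]; exact hb
    obtain ⟨t₂, f1, f2, f3⟩ := rots_lift hrot t₁ e1 hb1 (fun d hd _ => (e3 d hd).2)
    have f4 : ∀ z ∈ keys T, wd z t₂ = wd z t₁ := fun z hz => f3 z (by rw [e2]; exact hz)
    have hkT : keys T₂ = keys T := by rw [f2, e2]
    have hb2 : IsBST T₂ := by unfold IsBST; rw [hkT]; exact hb
    have e6' : Tot La (fun z => wd z t₂) (splay x S) ≤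
        Tot La (fun z => wd z t) (splay x S) + ((La : ℤ) - 1) := by
      rw [tot_congr (g := fun z => wd z t₁) _ fun z hz => f4 z (by rw [← hk1]; exact hz)]
      exact e6
    have e5' : Cap (2 * k) (fun z => wd z t₂) (keys T) :=
      cap_congr (fun z hz => (f4 z hz).symm) e5
    have e4' : ∀ z ∈ keys T, wd z t₂ = 0 → Recent (k + (j + 1)) (x :: H) z := fun z hz h0 =>
      e4 z hz (by rw [← f4 z hz]; exact h0)
    have e3' : ∀ d ∈ D₂, d ∈ keys T ∧ wd d t₂ = 0 := fun d hd => by
      obtain ⟨q1, q2⟩ := e3 d (hsub hd)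
      exact ⟨q1, by rw [f4 d q1]; exact q2⟩
    have hX' : ∀ y ∈ X, y ∈ keys T₂ := fun y hy => by rw [hkT]; exact hX y (by simp [hy])
    simp only [costSplay]
    push_cast
    by_cases hj1 : j + 1 < k
    · have i := ih t₂ (splay x S) (j + 1) f1 hb2 (by rw [hk1, hkT]) hX' hj1
        (by rw [hkT]; exact e3') (by rw [hkT]; exact e4') (by rw [hkT]; exact e5') hI'
      push_cast at i
      linarith
    · -- keys leave the cache
      have hjk : j + 1 = k := by omega
      have g1 : fg (demote D₂ t₂) = T₂ := by rw [fg_demote, f1]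
      have hbf : IsBST (fg t₂) := by rw [f1]; exact hb2
      have hkf : keys (fg t₂) = keys T := by rw [f1, hkT]
      have hdc := (demote_cmp D₂ t₂ hbf).1
      obtain ⟨n, n1, n2⟩ := recent_uniform D₂ hrec
      have hcapd := cap_demote (D := D₂) (B := 2 * k) hbf (by rw [hkf]; exact e5')
      have i := ih (demote D₂ t₂) (splay x S) 0 g1 hb2 (by rw [hk1, hkT]) hX' (by omega)
        (by
          rw [hkT]
          intro d hd
          obtain ⟨q1, q2⟩ := e3' d hd
          exact ⟨q1, (hdc d (by rw [hkf]; exact q1)).2.2.2 (by rw [f1]; exact htop) hd q2⟩)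
        (by
          rw [hkT]
          intro z hz h0
          exact hrec z ((hdc z (by rw [hkf]; exact hz)).2.2.1 h0))
        (by rw [hkT, ← hkf]; exact hcapd) hI'
      have td := tot_demote (La := La) (D := D₂) (E := ((x :: H).take n).toFinset) hbf
        (fun z hz h0 => by
          rw [List.mem_toFinset]
          exact n1 z ((hdc z hz).2.2.1 h0)) (splay x S) (by rw [hk1, hkf])
      have ta := ancs_le_recent hI' n2
      have ta2 : (La : ℤ) * (ancs ((x :: H).take n).toFinset (splay x S) : ℤ) ≤
          (La : ℤ) * (2 * (k : ℤ)) :=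
        mul_le_mul_of_nonneg_left (by exact_mod_cast ta) (by positivity)
      have hkj : (k : ℤ) = (j : ℤ) + 1 := by exact_mod_cast hjk.symm
      rw [hkj] at ta2
      push_cast at i
      linarith

/-- Splaying is `O(log k)`-competitive against executions with a cache of keys among the `k`
distinct keys requested last. -/
theorem cache_main {k : ℕ} (hk : 1 ≤ k) {T : Tr} {X : List ℕ} {c : ℕ} (hb : IsBST T)
    (hX : ∀ x ∈ X, x ∈ keys T) (h : CacheRun k [] T ∅ X c) :
    costSplay T X ≤ 18 * (Nat.log 2 k + 2) * c := by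
  have hlog : Nat.log 2 (2 * k) + 1 = Nat.log 2 k + 2 := by
    have : Nat.log 2 (k * 2) = Nat.log 2 k + 1 := Nat.log_mul_base (by norm_num) (by omega)
    rw [mul_comm 2 k, this]
  have h1 := run_aux hlog h (ini T) T 0 (fg_ini T) hb rfl hX (by omega) (by simp)
    (fun z hz h0 => by rw [wd_ini T hb z hz] at h0; omega) (cap_ini (by omega) hb) (inv_nil T)
  have h2 := tot_ini (La := Nat.log 2 k + 2) hb
  have h3 : (costSplay T X : ℤ) ≤ ((18 * (Nat.log 2 k + 2) * c : ℕ) : ℤ) := by
    push_cast at h1 ⊢
    linarith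
  exact_mod_cast h3

end Pool.Agent.Helper76.CW
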